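import Pool.Agent.J4H49.GE.Lct

/-!
# Project GE (helper27): job (LCA), the finite places where all `u` are units
-/

set_option autoImplicit false
set_option linter.unusedSectionVars false

open Finset NumberField

namespace Pool.Agent.J4H49.GE

open Pool.Agent.J4H27.GC Pool.Agent.J4H27.GE
open Pool.Agent.J4H71.GC (Pt Ht hR_eq prod_Ix sum_Ix fin_sum fin_int fin_nat MM NB NB.mul NB.one NB.pow)

variable {K : Type} [Field K] [NumberField K] {m : ℕ}

/-- the value as a sum of terms of the standard form, powers of `u - 1` -/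
lemma Vm_eq2 (hV : S_VAM) {a b : Fin 2 → 𝓞 K} (D k : Fin m → ℕ) {C₁ : ℝ}
    {x h : Ix m → K} {E : Ix m → PowerSeries K} (hE : Dat (a 1) (b 1) C₁ x h E)
    (F : NN D → MvPolynomial (Fin 2) (𝓞 K)) (r : Fin m → Bool) :
    Vm a b D k (gR K m) (xF x h) (hR h E) r F = ∑ α ∈ KA D, ∑ κ ∈ KB D,
      xF x h (none, 0) ^ 0 *
        (GA a b D k F r α κ).eval₂ (gR K m) (fun j => xF x h (none, j)) *
        (hR h E (none, 1) ^ (∑ i, if (κ i).2 then 1 else 0) *
          ∏ i, (((Xt x h (some i, 0) - 1) ^ α i).toMvPowerSeries (some i, 0) *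
            (Xt x h (some i, 1) ^ (κ i).1 * Ht h E (some i, 1) ^ (if (κ i).2 then 1 else 0)).toMvPowerSeries
              (some i, 1))) := by
  rw [(hV K a b m D k _ (gR K m) (xF x h) (hR h E) (onM hE) r F).2]
  refine sum_congr rfl fun α _ => sum_congr rfl fun κ _ => ?_
  have h1 := rearr (fun i => xF x h (some i, 0) - 1) (1 : MvPowerSeries (Ix m) K) (fun _ => 0) α
    ((GA a b D k F r α κ).eval₂ (gR K m) (fun j => xF x h (none, j))) (fun i => xF x h (some i, 1))
    (fun i => hR h E (some i, 1)) (hR h E (none, 1)) (fun i => (κ i).1) (fun i => (κ i).2)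
  simp only [pow_zero, mul_one, zero_mul, sum_const_zero] at h1
  have h2 : (GA a b D k F r α κ).eval₂ (gR K m) (fun j => xF x h (none, j)) *
        ∏ i, ((xF x h (some i, 0) - 1) ^ (α i) *
          (xF x h (some i, 1) ^ (κ i).1 * if (κ i).2 then hR h E (some i, 1) * hR h E (none, 1) else 1)) =
      (∏ i, (xF x h (some i, 0) - 1) ^ α i) * ((GA a b D k F r α κ).eval₂ (gR K m) (fun j => xF x h (none, j)) *
        ∏ i, (xF x h (some i, 1) ^ (κ i).1 * if (κ i).2 then hR h E (some i, 1) * hR h E (none, 1) else 1)) := by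
    rw [prod_mul_distrib]
    ring
  rw [h2, h1, pow_zero]
  congr 2
  refine prod_congr rfl fun i _ => ?_
  rw [map_mul, map_pow, map_pow, map_pow, map_sub, map_one, ← xF_eq, ← xF_eq, ← hR_eq]
  congr 2
  split_ifs
  · rw [pow_one]
  · rw [pow_zero]

/-- coefficients of the powers of `u (1 + X) - 1` -/
lemma fin_um (v : FinitePlace K) {x : K} (hx : v x = 1) (n s : ℕ) :
    v (PowerSeries.coeff s ((PowerSeries.C x + PowerSeries.C x * PowerSeries.X - 1) ^ n)) ≤
      if s ≤ n then v (x - 1) ^ (n - s) else 0 := by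
  have e1 : (PowerSeries.C x + PowerSeries.C x * PowerSeries.X - 1 : PowerSeries K) =
      PowerSeries.C (x - 1) + PowerSeries.C x * PowerSeries.X := by
    rw [map_sub, map_one]; ring
  have hd : v (x - 1) ≤ 1 := by
    have := FinitePlace.add_le v x (-1)
    rw [← sub_eq_add_neg, hx] at this
    have h1 : v (-1 : K) ≤ 1 := by
      have := fin_int v (-1 : 𝓞 K)
      simpa using this
    exact this.trans (max_le le_rfl h1)
  rw [e1]
  have key : ∀ n s : ℕ, v (PowerSeries.coeff s ((PowerSeries.C (x - 1) + PowerSeries.C x * PowerSeries.X) ^ n)) ≤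
      if s ≤ n then v (x - 1) ^ (n - s) else 0 := by
    intro n
    induction n with
    | zero =>
      intro s
      rw [pow_zero, PowerSeries.coeff_one]
      split_ifs with h1 h2 h2
      · rw [map_one, h1]; simp
      · omega
      · omega
      · rw [map_zero]
    | succ n ih =>
      intro s
      rw [pow_succ, mul_add, map_add]
      have h1 : PowerSeries.coeff s ((PowerSeries.C (x - 1) + PowerSeries.C x * PowerSeries.X) ^ n * PowerSeries.C (x - 1)) =
          PowerSeries.coeff s ((PowerSeries.C (x - 1) + PowerSeries.C x * PowerSeries.X) ^ n) * (x - 1) :=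
        PowerSeries.coeff_mul_C _ _ _
      rw [h1]
      refine (FinitePlace.add_le v _ _).trans (max_le ?_ ?_)
      · rw [map_mul]
        refine (mul_le_mul_of_nonneg_right (ih s) (apply_nonneg v _)).trans ?_
        split_ifs with h2 h3
        · rw [← pow_succ]
          refine le_of_eq ?_
          congr 1
          omega
        · omega
        · rw [zero_mul]
          positivity
        · rw [zero_mul]
      · rcases s with _ | s
        · have h2 : PowerSeries.coeff 0 ((PowerSeries.C (x - 1) + PowerSeries.C x * PowerSeries.X) ^ n *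
              (PowerSeries.C x * PowerSeries.X)) = 0 := by
            rw [← mul_assoc, PowerSeries.coeff_zero_mul_X]
          rw [h2, map_zero]
          split_ifs
          · positivity
          · exact le_rfl
        · have h2 : PowerSeries.coeff (s + 1) ((PowerSeries.C (x - 1) + PowerSeries.C x * PowerSeries.X) ^ n *
              (PowerSeries.C x * PowerSeries.X)) =
              PowerSeries.coeff s ((PowerSeries.C (x - 1) + PowerSeries.C x * PowerSeries.X) ^ n) * x := by
            rw [← mul_assoc, PowerSeries.coeff_succ_mul_X, PowerSeries.coeff_mul_C]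
          rw [h2, map_mul, hx, mul_one]
          refine (ih s).trans (le_of_eq ?_)
          rw [Nat.add_sub_add_right]
          simp only [Nat.add_le_add_iff_right]
  exact key n s

/-- comparison at one index -/
lemma blkA {δ M : ℝ} (hδ0 : 0 < δ) (hδ : δ ≤ 1) (hM : 1 ≤ M) {α c D T s : ℕ} (hc : c ≤ 2 * D)
    (hT : c + T ≤ 2 * D + α) :
    δ ^ (α - s) * M ^ c ≤ M ^ (2 * D + s) * (min (max 1 δ⁻¹) M ^ T)⁻¹ := by
  have hm : 1 ≤ min (max 1 δ⁻¹) M := le_min (le_max_left _ _) hM
  set G := min (max 1 δ⁻¹) M with hG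
  have hG0 : 0 < G := lt_of_lt_of_le one_pos hm
  have hGδ : δ * G ≤ 1 := by
    have h1 : G ≤ δ⁻¹ := by
      refine (min_le_left _ _).trans ?_
      rw [max_eq_right (one_le_inv₀ hδ0 |>.2 hδ)]
    calc δ * G ≤ δ * δ⁻¹ := mul_le_mul_of_nonneg_left h1 hδ0.le
      _ = 1 := mul_inv_cancel₀ hδ0.ne'
  have hGM : G ≤ M := min_le_right _ _
  rw [← div_eq_mul_inv, le_div_iff₀ (by positivity)]
  rcases le_total T (α - s) with h | h
  · calc δ ^ (α - s) * M ^ c * G ^ T = δ ^ (α - s - T) * M ^ c * (δ * G) ^ T := by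
          have e : α - s = (α - s - T) + T := by omega
          conv_lhs => rw [e, pow_add]
          rw [mul_pow]; ring
      _ ≤ 1 * M ^ c * 1 := by
          have h1 : δ ^ (α - s - T) ≤ 1 := pow_le_one₀ hδ0.le hδ
          have h2 : (δ * G) ^ T ≤ 1 := pow_le_one₀ (by positivity) hGδ
          gcongr
      _ = M ^ c := by ring
      _ ≤ _ := pow_le_pow_right₀ hM (by omega)
  · calc δ ^ (α - s) * M ^ c * G ^ T = (δ * G) ^ (α - s) * M ^ c * G ^ (T - (α - s)) := by
          have e : T = (α - s) + (T - (α - s)) := by omega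
          conv_lhs => rw [e, pow_add]
          rw [mul_pow]; ring
      _ ≤ 1 * M ^ c * M ^ (T - (α - s)) := by
          have h1 : (δ * G) ^ (α - s) ≤ 1 := pow_le_one₀ (by positivity) hGδ
          have h2 : G ^ (T - (α - s)) ≤ M ^ (T - (α - s)) := pow_le_pow_left₀ hG0.le hGM _
          gcongr
      _ = M ^ (c + (T - (α - s))) := by rw [pow_add]; ring
      _ ≤ _ := pow_le_pow_right₀ hM (by omega)

theorem t_LCA (hMMF : S_MMF) (hV : S_VAM) : S_LCA := by
  classical
  intro K _ _ a b m C₁ hC₁ D k T d hd hD hk F hF hT x h E hE hx1 v hv r s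
  obtain ⟨CM, hCM, hMM'⟩ := hMMF K a b
  have hMM : MM a b CM := hMM'
  have hM : ∀ t, 1 ≤ max 1 (v (x t)) := fun t => le_max_left _ _
  have hM0 : ∀ t, 0 < max 1 (v (x t)) := fun t => lt_of_lt_of_le one_pos (hM t)
  have hG : ∀ i : Fin m, 0 < min (max 1 (v (x (some i, 0) - 1)⁻¹)) (max 1 (v (x (some i, 1)))) := fun i =>
    lt_min (lt_of_lt_of_le one_pos (le_max_left _ _)) (hM0 _)
  have hδ : ∀ i : Fin m, 0 < v (x (some i, 0) - 1) := by
    intro i
    refine lt_of_le_of_ne (apply_nonneg v _) (Ne.symm ?_)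
    intro h0
    exact sub_ne_zero.2 (hx1 i) ((map_eq_zero v).1 h0)
  have hδ1 : ∀ i : Fin m, v (x (some i, 0) - 1) ≤ 1 := by
    intro i
    have := FinitePlace.add_le v (x (some i, 0)) (-1)
    rw [← sub_eq_add_neg, hv (some i)] at this
    have h1 : v (-1 : K) ≤ 1 := by
      have := fin_int v (-1 : 𝓞 K)
      simpa using this
    exact this.trans (max_le le_rfl h1)
  have hBA : 0 ≤ BA D T d (fun t => max 1 (v (x t)))
      (fun i => min (max 1 (v (x (some i, 0) - 1)⁻¹)) (max 1 (v (x (some i, 1))))) s := by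
    unfold BA
    refine mul_nonneg (mul_nonneg (mul_nonneg ?_ ?_) ?_) ?_
    · exact (pow_pos (hM0 _) _).le
    · exact prod_nonneg fun i _ => (pow_pos (hM0 _) _).le
    · exact prod_nonneg fun i _ => (pow_pos (hM0 _) _).le
    · exact prod_nonneg fun i _ => inv_nonneg.2 (pow_pos (hG i) _).le
  rw [Vm_eq2 hV D k hE F r, map_sum]
  refine fin_sum v _ _ hBA fun α _ => ?_
  rw [map_sum]
  refine fin_sum v _ _ hBA fun κ hκ' => ?_
  have hκ : ∀ i, (κ i).1 ≤ 2 * D i := by
    intro i
    unfold KB at hκ'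
    rw [Fintype.mem_piFinset] at hκ'
    have h2 := hκ' i
    rw [mem_product, mem_range] at h2
    have h3 : (κ i).1 < 2 * D i + 1 := h2.1
    omega
  by_cases hz : GA a b D k F r α κ = 0
  · rw [hz, MvPolynomial.eval₂_zero, mul_zero, zero_mul, map_zero, map_zero]
    exact hBA
  have hT' : ∀ i, (κ i).1 + T i ≤ 2 * D i + α i := by
    intro i
    by_contra hne
    push Not at hne
    exact hz (hT r α κ i hne)
  have h2 := fin_term v hE (GA a b D k F r α κ) (le_refl _) (GA_degree1 hMM D k hk F hF r α κ)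
    0 (∑ i, if (κ i).2 then 1 else 0) (fun i => (Xt x h (some i, 0) - 1) ^ α i)
    (fun i => Xt x h (some i, 1) ^ (κ i).1 * Ht h E (some i, 1) ^ (if (κ i).2 then 1 else 0)) s
    (fun i => if s (some i, 0) ≤ α i then v (x (some i, 0) - 1) ^ (α i - s (some i, 0)) else 0)
    (fun i => max 1 (v (x (some i, 1))) ^ ((κ i).1 + 2 * (if (κ i).2 then 1 else 0) + 2 * s (some i, 1)))
    (fun i => by rw [Xt_zero]; exact fin_um v (hv (some i)) _ _) (fun i => fin_one v hE (some i) _ _ _)
  refine h2.trans ?_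
  rw [hv none, max_self, one_pow, one_pow, one_mul, one_mul]
  have h3 : ∏ i, ((if s (some i, 0) ≤ α i then v (x (some i, 0) - 1) ^ (α i - s (some i, 0)) else 0) *
      max 1 (v (x (some i, 1))) ^ ((κ i).1 + 2 * (if (κ i).2 then 1 else 0) + 2 * s (some i, 1))) ≤
      ∏ i, (max 1 (v (x (some i, 1))) ^ (2 * D i + 2 + s (some i, 0)) * max 1 (v (x (some i, 1))) ^ (2 * s (some i, 1)) *
        (min (max 1 (v (x (some i, 0) - 1)⁻¹)) (max 1 (v (x (some i, 1)))) ^ T i)⁻¹) := by
    refine prod_le_prod (fun i _ => ?_) fun i _ => ?_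
    · refine mul_nonneg ?_ (by positivity)
      split_ifs
      · exact pow_nonneg (apply_nonneg v _) _
      · exact le_rfl
    · have h4 := blkA (hδ i) (hδ1 i) (hM (some i, 1)) (s := s (some i, 0)) (hκ i) (hT' i)
      have e0 : v (x (some i, 0) - 1)⁻¹ = (v (x (some i, 0) - 1))⁻¹ := map_inv₀ v _
      rw [e0]
      have h5 : (if s (some i, 0) ≤ α i then v (x (some i, 0) - 1) ^ (α i - s (some i, 0)) else 0) ≤
          v (x (some i, 0) - 1) ^ (α i - s (some i, 0)) := by
        split_ifs
        · exact le_rfl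
        · exact pow_nonneg (apply_nonneg v _) _
      have h6 : max 1 (v (x (some i, 1))) ^ (2 * (if (κ i).2 then 1 else 0)) ≤ max 1 (v (x (some i, 1))) ^ 2 :=
        pow_le_pow_right₀ (hM _) (by split_ifs <;> omega)
      have hp := hM0 (some i, 1)
      have hg := inv_nonneg.2 (pow_pos (hG i) (T i)).le
      rw [e0] at hg
      calc (if s (some i, 0) ≤ α i then v (x (some i, 0) - 1) ^ (α i - s (some i, 0)) else 0) *
          max 1 (v (x (some i, 1))) ^ ((κ i).1 + 2 * (if (κ i).2 then 1 else 0) + 2 * s (some i, 1)) ≤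
          v (x (some i, 0) - 1) ^ (α i - s (some i, 0)) *
          max 1 (v (x (some i, 1))) ^ ((κ i).1 + 2 * (if (κ i).2 then 1 else 0) + 2 * s (some i, 1)) :=
            mul_le_mul_of_nonneg_right h5 (by positivity)
        _ = (v (x (some i, 0) - 1) ^ (α i - s (some i, 0)) * max 1 (v (x (some i, 1))) ^ (κ i).1) *
            (max 1 (v (x (some i, 1))) ^ (2 * (if (κ i).2 then 1 else 0)) * max 1 (v (x (some i, 1))) ^ (2 * s (some i, 1))) := by
            rw [pow_add, pow_add]; ring
        _ ≤ (max 1 (v (x (some i, 1))) ^ (2 * D i + s (some i, 0)) *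
            (min (max 1 (v (x (some i, 0) - 1))⁻¹) (max 1 (v (x (some i, 1)))) ^ T i)⁻¹) *
            (max 1 (v (x (some i, 1))) ^ 2 * max 1 (v (x (some i, 1))) ^ (2 * s (some i, 1))) := by
            refine mul_le_mul h4 (mul_le_mul_of_nonneg_right h6 (by positivity)) (by positivity)
              (mul_nonneg (by positivity) hg)
        _ = _ := by
            rw [pow_add, pow_add, pow_add]; ring
  have hq := q_le fun i => (κ i).2
  have h7 : max 1 (v (x (none, 1))) ^ (d + 2 * m * d + 2 * (∑ i, if (κ i).2 then 1 else 0) + 2 * s (none, 1)) ≤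
      max 1 (v (x (none, 1))) ^ (d + 2 * m * d + 2 * m) * max 1 (v (x (none, 1))) ^ (2 * s (none, 1)) := by
    rw [← pow_add]
    exact pow_le_pow_right₀ (hM _) (by omega)
  refine (mul_le_mul h7 h3 (prod_nonneg fun i _ => ?_) (by positivity)).trans (le_of_eq ?_)
  · refine mul_nonneg ?_ (by positivity)
    split_ifs
    · exact pow_nonneg (apply_nonneg v _) _
    · exact le_rfl
  · unfold BA
    rw [Fintype.prod_option, prod_mul_distrib, prod_mul_distrib]
    ring

end Pool.Agent.J4H49.GE
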