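import Pool.Agent.J4H49.GE.Base2

/-!
# Project GE (helper27): job (LCT), the trivial local bounds
-/

set_option autoImplicit false
set_option linter.unusedSectionVars false

open Finset NumberField

namespace Pool.Agent.J4H49.GE

open Pool.Agent.J4H27.GC Pool.Agent.J4H27.GE
open Pool.Agent.J4H71.GC (Pt Ht hR_eq prod_Ix sum_Ix fin_sum fin_int MM)

variable {K : Type} [Field K] [NumberField K] {m : ℕ}

/-- comparison with `BT` -/
lemma BT_cmp {D k : Fin m → ℕ} {d c : ℕ} (hc : 2 ≤ c) {M : Ix m → ℝ} (hM : ∀ t, 1 ≤ M t) {z : ℝ} (hz : 0 ≤ z)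
    {u : Fin m → ℝ} (hu : ∀ i, 0 ≤ u i) (n0 : N1 D) {q : ℕ} (hq : q ≤ m) (s : Ix m →₀ ℕ) (e : Fin m → ℕ)
    (he : ∀ i, e i ≤ 2 * D i + c + c * s (some i, 1)) :
    z ^ (∑ i, 4 ^ k i * (n0 i : ℕ)) * M (none, 0) ^ d * M (none, 1) ^ (d + 2 * m * d + 2 * q + 2 * s (none, 1)) *
      ∏ i, (u i ^ (n0 i : ℕ) * M (some i, 1) ^ e i) ≤ BT D d c M (fun i => max 1 (u i * z ^ 4 ^ k i)) s := by
  have hM0 : ∀ t, 0 < M t := fun t => lt_of_lt_of_le one_pos (hM t)
  have h1 : z ^ (∑ i, 4 ^ k i * (n0 i : ℕ)) * ∏ i, u i ^ (n0 i : ℕ) ≤ ∏ i, (max 1 (u i * z ^ 4 ^ k i)) ^ D i := by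
    rw [← prod_pow_eq_pow_sum, ← prod_mul_distrib]
    refine prod_le_prod (fun i _ => mul_nonneg (by positivity) (pow_nonneg (hu i) _)) fun i _ => ?_
    have e1 : z ^ (4 ^ k i * (n0 i : ℕ)) * u i ^ (n0 i : ℕ) = (u i * z ^ 4 ^ k i) ^ (n0 i : ℕ) := by
      rw [mul_pow, ← pow_mul]; ring
    rw [e1]
    calc (u i * z ^ 4 ^ k i) ^ (n0 i : ℕ) ≤ (max 1 (u i * z ^ 4 ^ k i)) ^ (n0 i : ℕ) :=
          pow_le_pow_left₀ (mul_nonneg (hu i) (by positivity)) (le_max_right _ _) _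
      _ ≤ _ := pow_le_pow_right₀ (le_max_left _ _) (Fin.is_le _)
  have h2 : ∏ i, M (some i, 1) ^ e i ≤ (∏ i, M (some i, 1) ^ (2 * D i + c)) * ∏ i, M (some i, 1) ^ (c * s (some i, 1)) := by
    rw [← prod_mul_distrib]
    refine prod_le_prod (fun i _ => (pow_pos (hM0 _) _).le) fun i _ => ?_
    rw [← pow_add]
    exact pow_le_pow_right₀ (hM _) (he i)
  have h3 : M (none, 1) ^ (d + 2 * m * d + 2 * q + 2 * s (none, 1)) ≤
      M (none, 1) ^ (d + 2 * m * d + 2 * m) * M (none, 1) ^ (c * s (none, 1)) := by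
    rw [← pow_add]
    refine pow_le_pow_right₀ (hM _) ?_
    have : 2 * s (none, 1) ≤ c * s (none, 1) := Nat.mul_le_mul_right _ hc
    omega
  unfold BT
  rw [Fintype.prod_option, prod_mul_distrib]
  have hp1 : 0 ≤ ∏ i, u i ^ (n0 i : ℕ) := prod_nonneg fun i _ => pow_nonneg (hu i) _
  have hp2 : 0 ≤ ∏ i, M (some i, 1) ^ e i := prod_nonneg fun i _ => (pow_pos (hM0 _) _).le
  have hp3 : 0 ≤ ∏ i, M (some i, 1) ^ (2 * D i + c) := prod_nonneg fun i _ => (pow_pos (hM0 _) _).le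
  have hp4 : 0 ≤ ∏ i, M (some i, 1) ^ (c * s (some i, 1)) := prod_nonneg fun i _ => (pow_pos (hM0 _) _).le
  have hp5 : 0 ≤ ∏ i, (max 1 (u i * z ^ 4 ^ k i)) ^ D i := prod_nonneg fun i _ => by positivity
  have g0 := pow_pos (hM0 (none, 0)) d
  have g1 := pow_pos (hM0 (none, 1)) (d + 2 * m * d + 2 * m)
  have g2 := pow_pos (hM0 (none, 1)) (c * s (none, 1))
  have g3 := pow_pos (hM0 (none, 1)) (d + 2 * m * d + 2 * q + 2 * s (none, 1))
  calc z ^ (∑ i, 4 ^ k i * (n0 i : ℕ)) * M (none, 0) ^ d * M (none, 1) ^ (d + 2 * m * d + 2 * q + 2 * s (none, 1)) *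
      ((∏ i, u i ^ (n0 i : ℕ)) * ∏ i, M (some i, 1) ^ e i) =
      M (none, 0) ^ d * M (none, 1) ^ (d + 2 * m * d + 2 * q + 2 * s (none, 1)) * (∏ i, M (some i, 1) ^ e i) *
        (z ^ (∑ i, 4 ^ k i * (n0 i : ℕ)) * ∏ i, u i ^ (n0 i : ℕ)) := by ring
    _ ≤ M (none, 0) ^ d * (M (none, 1) ^ (d + 2 * m * d + 2 * m) * M (none, 1) ^ (c * s (none, 1))) *
        ((∏ i, M (some i, 1) ^ (2 * D i + c)) * ∏ i, M (some i, 1) ^ (c * s (some i, 1))) *
        ∏ i, (max 1 (u i * z ^ 4 ^ k i)) ^ D i := by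
        refine mul_le_mul (mul_le_mul (mul_le_mul_of_nonneg_left h3 g0.le) h2 hp2 (by positivity)) h1
          (mul_nonneg (by positivity) hp1) (by positivity)
    _ = _ := by ring

lemma BT_nonneg {D : Fin m → ℕ} {d c : ℕ} {M : Ix m → ℝ} (hM : ∀ t, 1 ≤ M t) {U : Fin m → ℝ} (hU : ∀ i, 1 ≤ U i)
    (s : Ix m →₀ ℕ) : 0 ≤ BT D d c M U s := by
  have hM0 : ∀ t, 0 < M t := fun t => lt_of_lt_of_le one_pos (hM t)
  unfold BT
  refine mul_nonneg (mul_nonneg (mul_nonneg (mul_nonneg ?_ ?_) ?_) ?_) ?_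
  · exact (pow_pos (hM0 _) _).le
  · exact (pow_pos (hM0 _) _).le
  · exact prod_nonneg fun i _ => (pow_pos (hM0 _) _).le
  · exact prod_nonneg fun i _ => (pow_pos (hM0 _) _).le
  · exact prod_nonneg fun i _ => pow_nonneg (zero_le_one.trans (hU i)) _

/-- the value as a sum of terms of the standard form -/
lemma Vm_eq (hV : S_VAM) {a b : Fin 2 → 𝓞 K} (D k : Fin m → ℕ) {C₁ : ℝ}
    {x h : Ix m → K} {E : Ix m → PowerSeries K} (hE : Dat (a 1) (b 1) C₁ x h E)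
    (F : NN D → MvPolynomial (Fin 2) (𝓞 K)) (r : Fin m → Bool) :
    Vm a b D k (gR K m) (xF x h) (hR h E) r F = ∑ n0 : N1 D, ∑ κ ∈ KB D,
      xF x h (none, 0) ^ (∑ i, 4 ^ k i * (n0 i : ℕ)) *
        (GB a b D k F r n0 κ).eval₂ (gR K m) (fun j => xF x h (none, j)) *
        (hR h E (none, 1) ^ (∑ i, if (κ i).2 then 1 else 0) *
          ∏ i, ((Xt x h (some i, 0) ^ (n0 i : ℕ)).toMvPowerSeries (some i, 0) *
            (Xt x h (some i, 1) ^ (κ i).1 * Ht h E (some i, 1) ^ (if (κ i).2 then 1 else 0)).toMvPowerSeries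
              (some i, 1))) := by
  rw [(hV K a b m D k _ (gR K m) (xF x h) (hR h E) (onM hE) r F).1]
  refine sum_congr rfl fun n0 _ => ?_
  rw [mul_sum]
  refine sum_congr rfl fun κ _ => ?_
  rw [rearr (fun i => xF x h (some i, 0)) (xF x h (none, 0)) (fun i => 4 ^ k i) (fun i => (n0 i : ℕ))
    ((GB a b D k F r n0 κ).eval₂ (gR K m) (fun j => xF x h (none, j))) (fun i => xF x h (some i, 1))
    (fun i => hR h E (some i, 1)) (hR h E (none, 1)) (fun i => (κ i).1) (fun i => (κ i).2)]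
  congr 2
  refine prod_congr rfl fun i _ => ?_
  rw [map_mul, map_pow, map_pow, map_pow, ← xF_eq, ← xF_eq, ← hR_eq]
  congr 2
  split_ifs
  · rw [pow_one]
  · rw [pow_zero]

lemma card_KB (D k : Fin m → ℕ) {d : ℕ} (hD : ∀ i, 1 ≤ D i) (hk : ∀ i, D i * 4 ^ k i = d) :
    ((KB D).card : ℝ) ≤ 6 ^ (m * d) := by
  classical
  have h0 : (KB D).card ≤ 6 ^ (m * d) := by
    unfold KB
    rw [Fintype.card_piFinset]
    have h1 : ∀ n : ℕ, 1 ≤ n → (2 * n + 1) * 2 ≤ 6 ^ n := by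
      intro n hn
      induction n, hn using Nat.le_induction with
      | base => norm_num
      | succ n hn ih =>
        rw [pow_succ]
        omega
    calc ∏ i, (Finset.range (2 * D i + 1) ×ˢ (Finset.univ : Finset Bool)).card ≤ ∏ _i : Fin m, 6 ^ d := by
          refine prod_le_prod' fun i _ => ?_
          simp only [card_product, card_range, card_univ, Fintype.card_bool]
          exact (h1 _ (hD i)).trans (Nat.pow_le_pow_right (by norm_num) (D_le hk i))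
      _ = 6 ^ (m * d) := by
          rw [prod_const, card_univ, Fintype.card_fin, ← pow_mul, mul_comm]
  exact_mod_cast h0

lemma q_le {m : ℕ} (e : Fin m → Bool) : (∑ i, if e i then 1 else 0) ≤ m := by
  calc ∑ i, (if e i then 1 else 0) ≤ ∑ _i : Fin m, 1 := sum_le_sum fun i _ => by split_ifs <;> omega
    _ = m := by simp

lemma p_le {D k : Fin m → ℕ} {d : ℕ} (hk : ∀ i, D i * 4 ^ k i = d) (n0 : N1 D) :
    ∑ i, 4 ^ k i * (n0 i : ℕ) ≤ m * d := by
  calc ∑ i, 4 ^ k i * (n0 i : ℕ) ≤ ∑ _i : Fin m, d := by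
        refine sum_le_sum fun i _ => ?_
        rw [← hk i, mul_comm]
        exact Nat.mul_le_mul_right _ (Fin.is_le _)
    _ = m * d := by simp

lemma n_le {D k : Fin m → ℕ} {d : ℕ} (hk : ∀ i, D i * 4 ^ k i = d) (n0 : N1 D) :
    ∑ i, (n0 i : ℕ) ≤ m * d := by
  calc ∑ i, (n0 i : ℕ) ≤ ∑ _i : Fin m, d := sum_le_sum fun i _ => (Fin.is_le _).trans (D_le hk i)
    _ = m * d := by simp

/-- bound of a term of the standard form at an arbitrary place -/
lemma arch_BT {v : AbsoluteValue K ℝ} {a b : 𝓞 K} {A₀ C₂ : ℝ} {x h : Ix m → K} {E : Ix m → PowerSeries K}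
    (hD : DatV v a b A₀ C₂ x h E) {D k : Fin m → ℕ} {d : ℕ} (hd : 1 ≤ d) (hk : ∀ i, D i * 4 ^ k i = d)
    (G : MvPolynomial (Fin 2) (𝓞 K)) (hG0 : G.degreeOf 0 ≤ d) (hG1 : G.degreeOf 1 ≤ d + 2 * m * d) (n0 : N1 D)
    {q : ℕ} (hq : q ≤ m) (fs : Fin m → PowerSeries K) (s : Ix m →₀ ℕ) {c : ℕ} (hc : 2 ≤ c) (Bc : Fin m → ℝ)
    (hBc : ∀ i, 0 ≤ Bc i) (e : Fin m → ℕ) (he : ∀ i, e i ≤ 2 * D i + c + c * s (some i, 1))
    (hB : ∀ i, v (PowerSeries.coeff (s (some i, 1)) (fs i)) ≤ Bc i * max 1 (v (x (some i, 1))) ^ e i) :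
    v (MvPowerSeries.coeff s (xF x h (none, 0) ^ (∑ i, 4 ^ k i * (n0 i : ℕ)) *
      G.eval₂ (gR K m) (fun j => xF x h (none, j)) *
      (hR h E (none, 1) ^ q * ∏ i, ((Xt x h (some i, 0) ^ (n0 i : ℕ)).toMvPowerSeries (some i, 0) *
        (fs i).toMvPowerSeries (some i, 1))))) ≤
      len G * (2 ^ ((2 * m + 1) * d) * (5 * (1 + A₀)) ^ ((3 * m + 1) * d) * C₂ ^ s (none, 1)) * (∏ i, Bc i) *
        BT D d c (fun t => max 1 (v (x t))) (fun i => max 1 (v (x (some i, 0) * x (none, 0) ^ (4 ^ k i)))) s := by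
  have hA00 := A0_nonneg hD
  have hC₃ : 1 ≤ 5 * (1 + A₀) := by linarith
  have hC₂ : 1 ≤ C₂ := hD.1
  have hz : 0 ≤ v (x (none, 0)) := apply_nonneg v _
  have hM : ∀ t, 1 ≤ max 1 (v (x t)) := fun t => le_max_left _ _
  have h1 := arch_term hD G hG0 hG1 (∑ i, 4 ^ k i * (n0 i : ℕ)) q (fun i => Xt x h (some i, 0) ^ (n0 i : ℕ)) fs s
    (fun i => 2 ^ (n0 i : ℕ) * v (x (some i, 0)) ^ (n0 i : ℕ)) (fun i => Bc i * max 1 (v (x (some i, 1))) ^ e i)
    (fun i => arch_z x h (some i) _ _) hB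
  refine h1.trans ?_
  have h2 := BT_cmp (D := D) (k := k) (d := d) hc hM hz (u := fun i => v (x (some i, 0))) (fun i => apply_nonneg v _) n0 hq s
    e he
  have e1 : (fun i => max 1 (v (x (some i, 0) * x (none, 0) ^ (4 ^ k i)))) =
      fun i => max 1 (v (x (some i, 0)) * v (x (none, 0)) ^ 4 ^ k i) := by
    funext i
    rw [map_mul, map_pow]
  rw [e1]
  set BB := BT D d c (fun t => max 1 (v (x t))) (fun i => max 1 (v (x (some i, 0)) * v (x (none, 0)) ^ 4 ^ k i)) s with hBB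
  set L := v (x (none, 0)) ^ (∑ i, 4 ^ k i * (n0 i : ℕ)) * max 1 (v (x (none, 0))) ^ d *
    max 1 (v (x (none, 1))) ^ (d + 2 * m * d + 2 * q + 2 * s (none, 1)) *
      ∏ i, (v (x (some i, 0)) ^ (n0 i : ℕ) * max 1 (v (x (some i, 1))) ^ e i) with hL
  have hL0 : 0 ≤ L := by
    rw [hL]
    refine mul_nonneg (by positivity) (prod_nonneg fun i _ => mul_nonneg (pow_nonneg (apply_nonneg v _) _) (by positivity))
  have hBp : 0 ≤ ∏ i, Bc i := prod_nonneg fun i _ => hBc i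
  have e2 : ∏ i, (2 ^ (n0 i : ℕ) * v (x (some i, 0)) ^ (n0 i : ℕ) * (Bc i * max 1 (v (x (some i, 1))) ^ e i)) =
      2 ^ (∑ i, (n0 i : ℕ)) * (∏ i, Bc i) * ∏ i, (v (x (some i, 0)) ^ (n0 i : ℕ) * max 1 (v (x (some i, 1))) ^ e i) := by
    rw [← prod_pow_eq_pow_sum, ← prod_mul_distrib, ← prod_mul_distrib]
    exact prod_congr rfl fun i _ => by ring
  rw [e2]
  have hl : 0 ≤ len G := len_nonneg _
  have hpow : (2 : ℝ) ^ ((∑ i, 4 ^ k i * (n0 i : ℕ)) + d) * 2 ^ (∑ i, (n0 i : ℕ)) ≤ 2 ^ ((2 * m + 1) * d) := by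
    rw [← pow_add]
    refine pow_le_pow_right₀ (by norm_num) ?_
    have := p_le hk n0
    have := n_le hk n0
    nlinarith
  have hpow2 : (5 * (1 + A₀)) ^ (d + 2 * m * d + q) ≤ (5 * (1 + A₀)) ^ ((3 * m + 1) * d) := by
    refine pow_le_pow_right₀ hC₃ ?_
    have h8 : m ≤ m * d := Nat.le_mul_of_pos_right m hd
    nlinarith
  have hC20 : 0 ≤ C₂ ^ s (none, 1) := by positivity
  calc len G * (2 ^ ((∑ i, 4 ^ k i * (n0 i : ℕ)) + d) * (v (x (none, 0)) ^ (∑ i, 4 ^ k i * (n0 i : ℕ)) *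
        max 1 (v (x (none, 0))) ^ d) * ((5 * (1 + A₀)) ^ (d + 2 * m * d + q) * C₂ ^ s (none, 1) *
          max 1 (v (x (none, 1))) ^ (d + 2 * m * d + 2 * q + 2 * s (none, 1))) *
        (2 ^ (∑ i, (n0 i : ℕ)) * (∏ i, Bc i) * ∏ i, (v (x (some i, 0)) ^ (n0 i : ℕ) * max 1 (v (x (some i, 1))) ^ e i))) =
      len G * ((2 ^ ((∑ i, 4 ^ k i * (n0 i : ℕ)) + d) * 2 ^ (∑ i, (n0 i : ℕ))) *
        (5 * (1 + A₀)) ^ (d + 2 * m * d + q) * C₂ ^ s (none, 1)) * (∏ i, Bc i) * L := by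
        rw [hL]; ring
    _ ≤ len G * (2 ^ ((2 * m + 1) * d) * (5 * (1 + A₀)) ^ ((3 * m + 1) * d) * C₂ ^ s (none, 1)) * (∏ i, Bc i) * BB := by
        refine mul_le_mul (mul_le_mul_of_nonneg_right (mul_le_mul_of_nonneg_left
          (mul_le_mul_of_nonneg_right (mul_le_mul hpow hpow2 (by positivity) (by positivity)) hC20) hl) hBp) h2 hL0
          (by positivity)

theorem t_LCT (hMMF : S_MMF) (hV : S_VAM) : S_LCT := by
  classical
  intro K _ _ a b m C₁ hC₁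
  obtain ⟨CM, hCM, hMM'⟩ := hMMF K a b
  have hMM : MM a b CM := hMM'
  obtain ⟨A, hA⟩ : ∃ A : ℝ, A = ∑ w : InfinitePlace K, (w.1 (a 1 : K) + w.1 (b 1 : K)) := ⟨_, rfl⟩
  have hAw : ∀ (w : InfinitePlace K), w.1 (a 1 : K) + w.1 (b 1 : K) ≤ A := by
    intro w
    rw [hA]
    exact single_le_sum (f := fun w : InfinitePlace K => (w.1 (a 1 : K) + w.1 (b 1 : K)))
      (fun w _ => add_nonneg (apply_nonneg w.1 _) (apply_nonneg w.1 _)) (mem_univ w)
  have hA0 : 0 ≤ A := by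
    rw [hA]
    exact sum_nonneg fun w _ => add_nonneg (apply_nonneg w.1 _) (apply_nonneg w.1 _)
  have hC₃1 : 1 ≤ 5 * (1 + A) := by linarith
  have hC₂ : 1 ≤ 2 * C₁ := by linarith
  refine ⟨(2 ^ (4 * m + 1) * 6 ^ m * CM ^ m * (5 * (1 + A)) ^ (6 * m + 1)) * (2 * C₁), ?_, ?_⟩
  · have e1 : (1 : ℝ) ≤ 6 ^ m := one_le_pow₀ (by norm_num)
    have e2 : (1 : ℝ) ≤ 2 ^ (4 * m + 1) := one_le_pow₀ (by norm_num)
    have e3 : 1 ≤ CM ^ m := one_le_pow₀ hCM
    have e4 : 1 ≤ (5 * (1 + A)) ^ (6 * m + 1) := one_le_pow₀ hC₃1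
    calc (1 : ℝ) = (1 * 1 * 1 * 1) * 1 := by ring
      _ ≤ _ := by gcongr
  intro D k d hd hD hk F Λ hF hΛ x h E hE r s
  have hΛ0 : 0 ≤ Λ := (len_nonneg (F fun _ _ => 0)).trans (hΛ _)
  have hκ : ∀ κ ∈ KB D, ∀ i, (κ i).1 ≤ 2 * D i := by
    intro κ hκ i
    unfold KB at hκ
    rw [Fintype.mem_piFinset] at hκ
    have h2 := hκ i
    rw [mem_product, mem_range] at h2
    have h3 : (κ i).1 < 2 * D i + 1 := h2.1
    omega
  have hexp : ∀ κ ∈ KB D, ∀ i, (κ i).1 + 2 * (if (κ i).2 then 1 else 0) + 2 * s (some i, 1) ≤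
      2 * D i + 2 + 2 * s (some i, 1) := by
    intro κ h1 i
    have := hκ κ h1 i
    split_ifs <;> omega
  rw [Vm_eq hV D k hE F r, map_sum]
  constructor
  · intro v
    have hM : ∀ t, 1 ≤ max 1 (v (x t)) := fun t => le_max_left _ _
    have hBT := BT_nonneg (D := D) (d := d) (c := 2) hM
      (U := fun i => max 1 (v (x (some i, 0) * x (none, 0) ^ (4 ^ k i)))) (fun i => le_max_left _ _) s
    refine fin_sum v _ _ hBT fun n0 _ => ?_
    rw [map_sum]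
    refine fin_sum v _ _ hBT fun κ h1 => ?_
    have h2 := fin_term v hE (GB a b D k F r n0 κ) (GB_degree0 hMM D k F hF r n0 κ) (GB_degree1 hMM D k hk F hF r n0 κ)
      (∑ i, 4 ^ k i * (n0 i : ℕ)) (∑ i, if (κ i).2 then 1 else 0) (fun i => Xt x h (some i, 0) ^ (n0 i : ℕ))
      (fun i => Xt x h (some i, 1) ^ (κ i).1 * Ht h E (some i, 1) ^ (if (κ i).2 then 1 else 0)) s
      (fun i => v (x (some i, 0)) ^ (n0 i : ℕ))
      (fun i => max 1 (v (x (some i, 1))) ^ ((κ i).1 + 2 * (if (κ i).2 then 1 else 0) + 2 * s (some i, 1)))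
      (fun i => fin_z v x h (some i) _ _) (fun i => fin_one v hE (some i) _ _ _)
    refine h2.trans ?_
    have h3 := BT_cmp (D := D) (k := k) (d := d) (c := 2) le_rfl hM (apply_nonneg v (x (none, 0)))
      (u := fun i => v (x (some i, 0))) (fun i => apply_nonneg v _) n0 (q_le fun i => (κ i).2) s _ (hexp κ h1)
    have e1 : (fun i => max 1 (v (x (some i, 0) * x (none, 0) ^ (4 ^ k i)))) =
        fun i => max 1 (v (x (some i, 0)) * v (x (none, 0)) ^ 4 ^ k i) := by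
      funext i
      rw [map_mul, map_pow]
    rw [e1]
    exact h3
  · intro w
    have hD' := datV_inf w hC₁ (hAw w) hE
    have hM : ∀ t, 1 ≤ max 1 (w (x t)) := fun t => le_max_left _ _
    have hBT := BT_nonneg (D := D) (d := d) (c := 2) hM
      (U := fun i => max 1 (w (x (some i, 0) * x (none, 0) ^ (4 ^ k i)))) (fun i => le_max_left _ _) s
    set BB := BT D d 2 (fun t => max 1 (w (x t))) (fun i => max 1 (w (x (some i, 0) * x (none, 0) ^ (4 ^ k i)))) s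
      with hBB
    have hterm : ∀ n0 : N1 D, ∀ κ ∈ KB D, w.1 (MvPowerSeries.coeff s
        (xF x h (none, 0) ^ (∑ i, 4 ^ k i * (n0 i : ℕ)) *
        (GB a b D k F r n0 κ).eval₂ (gR K m) (fun j => xF x h (none, j)) *
        (hR h E (none, 1) ^ (∑ i, if (κ i).2 then 1 else 0) *
          ∏ i, ((Xt x h (some i, 0) ^ (n0 i : ℕ)).toMvPowerSeries (some i, 0) *
            (Xt x h (some i, 1) ^ (κ i).1 * Ht h E (some i, 1) ^ (if (κ i).2 then 1 else 0)).toMvPowerSeries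
              (some i, 1))))) ≤
        (2 ^ (m * d) * (Λ * CM ^ (m * d))) * (2 ^ ((2 * m + 1) * d) * (5 * (1 + A)) ^ ((6 * m + 1) * d) *
          (2 * C₁) ^ (∑ t, s t)) * BB := by
      intro n0 κ h1
      have h2 := arch_BT hD' hd hk (GB a b D k F r n0 κ) (GB_degree0 hMM D k F hF r n0 κ)
        (GB_degree1 hMM D k hk F hF r n0 κ) n0 (q_le fun i => (κ i).2)
        (fun i => Xt x h (some i, 1) ^ (κ i).1 * Ht h E (some i, 1) ^ (if (κ i).2 then 1 else 0)) s le_rfl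
        (fun i => (5 * (1 + A)) ^ ((κ i).1 + (if (κ i).2 then 1 else 0)) * (2 * C₁) ^ s (some i, 1))
        (fun i => by positivity) _ (hexp κ h1) (fun i => arch_one hD' (some i) _ _ _)
      refine h2.trans ?_
      refine mul_le_mul_of_nonneg_right ?_ hBT
      have h3 : ∏ i, ((5 * (1 + A)) ^ ((κ i).1 + (if (κ i).2 then 1 else 0)) * (2 * C₁) ^ s (some i, 1)) ≤
          (5 * (1 + A)) ^ (3 * m * d) * (2 * C₁) ^ (∑ i, s (some i, 1)) := by
        rw [prod_mul_distrib, prod_pow_eq_pow_sum, prod_pow_eq_pow_sum]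
        refine mul_le_mul_of_nonneg_right (pow_le_pow_right₀ hC₃1 ?_) (by positivity)
        calc ∑ i, ((κ i).1 + (if (κ i).2 then 1 else 0)) ≤ ∑ _i : Fin m, 3 * d := by
              refine sum_le_sum fun i _ => ?_
              have := hκ κ h1 i
              have := D_le hk i
              split_ifs <;> omega
          _ = 3 * m * d := by simp; ring
      have h4 : s (none, 1) + ∑ i, s (some i, 1) ≤ ∑ t, s t := by
        rw [sum_Ix, Fin.sum_univ_two]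
        have h5 : ∑ i, s (some i, 1) ≤ ∑ i, ∑ j, s (some i, j) := sum_le_sum fun i _ => by
          rw [Fin.sum_univ_two]; omega
        omega
      have h5 := GB_len hMM hCM D k hk F hΛ0 hΛ r n0 κ
      have hCM0 : 0 ≤ CM := by linarith
      calc len (GB a b D k F r n0 κ) * (2 ^ ((2 * m + 1) * d) * (5 * (1 + A)) ^ ((3 * m + 1) * d) *
            (2 * C₁) ^ s (none, 1)) *
            ∏ i, ((5 * (1 + A)) ^ ((κ i).1 + (if (κ i).2 then 1 else 0)) * (2 * C₁) ^ s (some i, 1)) ≤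
          (2 ^ (m * d) * (Λ * CM ^ (m * d))) * (2 ^ ((2 * m + 1) * d) * (5 * (1 + A)) ^ ((3 * m + 1) * d) *
            (2 * C₁) ^ s (none, 1)) * ((5 * (1 + A)) ^ (3 * m * d) * (2 * C₁) ^ (∑ i, s (some i, 1))) := by
            refine mul_le_mul (mul_le_mul_of_nonneg_right h5 (by positivity)) h3
              (prod_nonneg fun i _ => by positivity) (by positivity)
        _ = (2 ^ (m * d) * (Λ * CM ^ (m * d))) * (2 ^ ((2 * m + 1) * d) *
            (5 * (1 + A)) ^ ((3 * m + 1) * d + 3 * m * d) * (2 * C₁) ^ (s (none, 1) + ∑ i, s (some i, 1))) := by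
            rw [pow_add (5 * (1 + A)), pow_add (2 * C₁)]
            ring
        _ ≤ _ := by
            refine mul_le_mul_of_nonneg_left ?_ (by positivity)
            refine mul_le_mul (mul_le_mul_of_nonneg_left (pow_le_pow_right₀ hC₃1 (by nlinarith)) (by positivity))
              (pow_le_pow_right₀ hC₂ h4) (by positivity) (by positivity)
    have hCM0 : 0 < CM := by linarith
    set Z := (2 ^ (m * d) * (Λ * CM ^ (m * d))) * (2 ^ ((2 * m + 1) * d) * (5 * (1 + A)) ^ ((6 * m + 1) * d) *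
          (2 * C₁) ^ (∑ t, s t)) * BB with hZ
    have hZ0 : 0 ≤ Z := by positivity
    have h6 : w.1 (∑ n0 : N1 D, MvPowerSeries.coeff s (∑ κ ∈ KB D,
        (xF x h (none, 0) ^ (∑ i, 4 ^ k i * (n0 i : ℕ)) *
        (GB a b D k F r n0 κ).eval₂ (gR K m) (fun j => xF x h (none, j)) *
        (hR h E (none, 1) ^ (∑ i, if (κ i).2 then 1 else 0) *
          ∏ i, ((Xt x h (some i, 0) ^ (n0 i : ℕ)).toMvPowerSeries (some i, 0) *
            (Xt x h (some i, 1) ^ (κ i).1 * Ht h E (some i, 1) ^ (if (κ i).2 then 1 else 0)).toMvPowerSeries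
              (some i, 1)))))) ≤ ∑ n0 : N1 D, ∑ κ ∈ KB D, Z := by
      refine (v_sum _ _).trans (sum_le_sum fun n0 _ => ?_)
      rw [map_sum]
      exact (v_sum _ _).trans (sum_le_sum fun κ h1 => hterm n0 κ h1)
    refine h6.trans ?_
    rw [sum_const, sum_const, nsmul_eq_mul, nsmul_eq_mul, card_univ, ← mul_assoc]
    have h7 := card_N1 hk
    have h8 := card_KB D k hD hk
    obtain ⟨G, hG⟩ : ∃ G : ℝ, G = 2 ^ (4 * m + 1) * 6 ^ m * CM ^ m * (5 * (1 + A)) ^ (6 * m + 1) := ⟨_, rfl⟩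
    rw [← hG]
    have hG1 : 1 ≤ G := by
      rw [hG]
      have e1 : (1 : ℝ) ≤ 6 ^ m := one_le_pow₀ (by norm_num)
      have e2 : (1 : ℝ) ≤ 2 ^ (4 * m + 1) := one_le_pow₀ (by norm_num)
      have e3 : 1 ≤ CM ^ m := one_le_pow₀ hCM
      have e4 : 1 ≤ (5 * (1 + A)) ^ (6 * m + 1) := one_le_pow₀ hC₃1
      calc (1 : ℝ) = 1 * 1 * 1 * 1 := by ring
        _ ≤ _ := by gcongr
    have h9 : G ^ d * (2 * C₁) ^ (∑ t, s t) ≤ (G * (2 * C₁)) ^ (d + ∑ t, s t) := by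
      rw [pow_add]
      have e1 : G ^ d ≤ (G * (2 * C₁)) ^ d :=
        pow_le_pow_left₀ (by linarith) (le_mul_of_one_le_right (by linarith) hC₂) d
      have e2 : (2 * C₁) ^ (∑ t, s t) ≤ (G * (2 * C₁)) ^ (∑ t, s t) :=
        pow_le_pow_left₀ (by linarith) (le_mul_of_one_le_left (by linarith) hG1) _
      exact mul_le_mul e1 e2 (by positivity) (by positivity)
    calc (Fintype.card (N1 D) : ℝ) * ((KB D).card : ℝ) * Z ≤ 2 ^ (m * d) * 6 ^ (m * d) * Z := by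
          refine mul_le_mul_of_nonneg_right (mul_le_mul h7 h8 (by positivity) (by positivity)) hZ0
      _ = (G ^ d * (2 * C₁) ^ (∑ t, s t)) * (Λ * BB) := by
          have e1 : (2 : ℝ) ^ ((4 * m + 1) * d) = 2 ^ (m * d) * 2 ^ (m * d) * 2 ^ ((2 * m + 1) * d) := by
            rw [← pow_add, ← pow_add]
            congr 1
            ring
          have e2 : G ^ d = 2 ^ ((4 * m + 1) * d) * 6 ^ (m * d) * CM ^ (m * d) * (5 * (1 + A)) ^ ((6 * m + 1) * d) := by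
            rw [hG, mul_pow (2 ^ (4 * m + 1) * 6 ^ m * CM ^ m), mul_pow (2 ^ (4 * m + 1) * 6 ^ m), mul_pow (2 ^ (4 * m + 1)),
              ← pow_mul, ← pow_mul, ← pow_mul, ← pow_mul]
          rw [e2, hZ, e1]
          ring
      _ ≤ (G * (2 * C₁)) ^ (d + ∑ t, s t) * (Λ * BB) := mul_le_mul_of_nonneg_right h9 (by positivity)
      _ = _ := by ring

end Pool.Agent.J4H49.GE
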