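import Pool.Agent.J4H49.GE.Lcb2

/-!
# Project GE (helper27): job (LCB), the bound at the place of the approximation
-/

set_option autoImplicit false
set_option linter.unusedSectionVars false

open Finset NumberField

namespace Pool.Agent.J4H49.GE

open Pool.Agent.J4H27.GC Pool.Agent.J4H27.GE
open Pool.Agent.J4H71.GC (Ht hR_eq MM sum_Ix)

variable {K : Type} [Field K] [NumberField K] {m : ℕ}

lemma one_le_prd {ι : Type*} {s : Finset ι} {f : ι → ℝ} (h : ∀ i ∈ s, 1 ≤ f i) : 1 ≤ ∏ i ∈ s, f i := by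
  calc (1 : ℝ) = ∏ _i ∈ s, (1 : ℝ) := prod_const_one.symm
    _ ≤ _ := prod_le_prod (fun _ _ => zero_le_one) h

lemma BT_mono {D : Fin m → ℕ} {d c c' : ℕ} (hc : c ≤ c') {M : Ix m → ℝ} (hM : ∀ t, 1 ≤ M t) {U : Fin m → ℝ}
    (hU : ∀ i, 1 ≤ U i) (s : Ix m →₀ ℕ) : BT D d c M U s ≤ BT D d c' M U s := by
  have hM0 : ∀ t, 0 < M t := fun t => lt_of_lt_of_le one_pos (hM t)
  unfold BT
  refine mul_le_mul_of_nonneg_right ?_ (prod_nonneg fun i _ => pow_nonneg (zero_le_one.trans (hU i)) _)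
  have h1 : ∏ i, M (some i, 1) ^ (2 * D i + c) ≤ ∏ i, M (some i, 1) ^ (2 * D i + c') :=
    prod_le_prod (fun i _ => (pow_pos (hM0 _) _).le) fun i _ => pow_le_pow_right₀ (hM _) (by omega)
  have h2 : ∏ t : Option (Fin m), M (t, 1) ^ (c * s (t, 1)) ≤ ∏ t : Option (Fin m), M (t, 1) ^ (c' * s (t, 1)) :=
    prod_le_prod (fun i _ => (pow_pos (hM0 _) _).le) fun i _ => pow_le_pow_right₀ (hM _) (Nat.mul_le_mul_right _ hc)
  have g0 := (pow_pos (hM0 (none, 0)) d).le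
  have g1 := (pow_pos (hM0 (none, 1)) (d + 2 * m * d + 2 * m)).le
  have g2 : 0 ≤ ∏ i, M (some i, 1) ^ (2 * D i + c') := prod_nonneg fun i _ => (pow_pos (hM0 _) _).le
  have g3 : 0 ≤ ∏ t : Option (Fin m), M (t, 1) ^ (c * s (t, 1)) := prod_nonneg fun i _ => (pow_pos (hM0 _) _).le
  exact mul_le_mul (mul_le_mul_of_nonneg_left h1 (mul_nonneg g0 g1)) h2 g3 (mul_nonneg (mul_nonneg g0 g1) g2)

lemma hs_prod {ι : Type} (s : Finset ι) (f : ι → 𝓞 K) : hs (∏ i ∈ s, f i) ≤ ∏ i ∈ s, hs (f i) := by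
  have h := len_prod s (fun i => (MvPolynomial.C (f i) : MvPolynomial (Fin 2) (𝓞 K)))
  rw [← map_prod, len_C] at h
  refine h.trans (le_of_eq (prod_congr rfl fun i _ => len_C _))

lemma GZ_degree (D : Fin m → ℕ) (R : Fin m → ℕ → ℕ → ℕ → 𝓞 K)
    (GBf : (Fin m → ℕ × Bool) → MvPolynomial (Fin 2) (𝓞 K)) (e : Fin m → Bool) (z : Fin m → ℕ × ℕ) (j : Fin 2) (d' : ℕ)
    (h : ∀ κ, (GBf κ).degreeOf j ≤ d') : (GZ D R GBf e z).degreeOf j ≤ d' := by
  classical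
  unfold GZ
  refine (MvPolynomial.degreeOf_sum_le _ _ _).trans (Finset.sup_le fun n _ => ?_)
  refine (MvPolynomial.degreeOf_mul_le _ _ _).trans ?_
  rw [MvPolynomial.degreeOf_C, zero_add]
  exact h _

lemma card_CC {D k : Fin m → ℕ} {d : ℕ} (hD : ∀ i, 1 ≤ D i) (hk : ∀ i, D i * 4 ^ k i = d) :
    ((CC D).card : ℝ) ≤ 6 ^ (m * d) := by
  have h0 : (CC D).card ≤ 6 ^ (m * d) := by
    unfold CC
    rw [Fintype.card_piFinset]
    have h1 : ∀ n : ℕ, 1 ≤ n → 2 * n + 1 ≤ 6 ^ n := by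
      intro n hn
      induction n, hn using Nat.le_induction with
      | base => norm_num
      | succ n hn ih =>
        rw [pow_succ]
        omega
    calc ∏ i, (Finset.range (2 * D i + 1)).card ≤ ∏ _i : Fin m, 6 ^ d := by
          refine prod_le_prod' fun i _ => ?_
          rw [card_range]
          exact (h1 _ (hD i)).trans (Nat.pow_le_pow_right (by norm_num) (D_le hk i))
      _ = 6 ^ (m * d) := by
          rw [prod_const, card_univ, Fintype.card_fin, ← pow_mul, mul_comm]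
  exact_mod_cast h0

lemma card_ZZ {D k : Fin m → ℕ} {d : ℕ} (hD : ∀ i, 1 ≤ D i) (hk : ∀ i, D i * 4 ^ k i = d) (N : ℕ) :
    ((ZZ D N).card : ℝ) ≤ 6 ^ (m * d) * ((N : ℝ) + 1) ^ m := by
  have h0 : (ZZ D N).card ≤ 6 ^ (m * d) * (N + 1) ^ m := by
    unfold ZZ
    rw [Fintype.card_piFinset]
    have h1 : ∀ n : ℕ, 1 ≤ n → 2 * n + 1 ≤ 6 ^ n := by
      intro n hn
      induction n, hn using Nat.le_induction with
      | base => norm_num
      | succ n hn ih =>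
        rw [pow_succ]
        omega
    calc ∏ i, (Finset.range (2 * D i + 1) ×ˢ Finset.range N).card ≤ ∏ _i : Fin m, (6 ^ d * (N + 1)) := by
          refine prod_le_prod' fun i _ => ?_
          rw [card_product, card_range, card_range]
          exact Nat.mul_le_mul ((h1 _ (hD i)).trans (Nat.pow_le_pow_right (by norm_num) (D_le hk i))) (by omega)
      _ = 6 ^ (m * d) * (N + 1) ^ m := by
          rw [prod_const, card_univ, Fintype.card_fin, mul_pow, ← pow_mul, mul_comm d m]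
  exact_mod_cast h0

lemma prod_L {D : Fin m → ℕ} (L : Fin m → ℝ) : ∏ i, L i ^ (2 * D i) = (∏ i, L i ^ D i) ^ 2 := by
  rw [← prod_pow]
  exact prod_congr rfl fun i _ => by rw [← pow_mul, mul_comm]

lemma GZ_len {D k : Fin m → ℕ} {d : ℕ} (hD : ∀ i, 1 ≤ D i) (hk : ∀ i, D i * 4 ^ k i = d) {N : ℕ} {CQ : ℝ}
    (hCQ : 1 ≤ CQ) {Q : Fin m → Polynomial (𝓞 K)} {L : Fin m → ℝ} {R : Fin m → ℕ → ℕ → ℕ → 𝓞 K}
    (hQ : ∀ i, Qad N CQ (Q i) (L i) (2 * D i) (R i))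
    (GBf : (Fin m → ℕ × Bool) → MvPolynomial (Fin 2) (𝓞 K)) {Λ' : ℝ} (hΛ' : ∀ κ, len (GBf κ) ≤ Λ')
    (e : Fin m → Bool) (z : Fin m → ℕ × ℕ) :
    len (GZ D R GBf e z) ≤ 6 ^ (m * d) * ((CQ ^ (2 * (m * d)) * (∏ i, L i ^ D i) ^ 2) * Λ') := by
  have hΛ0 : 0 ≤ Λ' := (len_nonneg _).trans (hΛ' fun _ => (0, false))
  have hL1 : ∀ i, 1 ≤ L i := fun i => (hQ i).2.2.1
  have hPL : 0 ≤ (∏ i, L i ^ D i) ^ 2 := by positivity
  unfold GZ
  have h1 : ∀ c ∈ CC D, len (MvPolynomial.C (∏ i, R i (c i) (z i).1 (z i).2) * GBf (fun i => (c i, e i))) ≤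
      (CQ ^ (2 * (m * d)) * (∏ i, L i ^ D i) ^ 2) * Λ' := by
    intro c hc
    unfold CC at hc
    rw [Fintype.mem_piFinset] at hc
    refine (len_mul _ _).trans (mul_le_mul ?_ (hΛ' _) (len_nonneg _) (by positivity))
    rw [len_C]
    refine (hs_prod _ _).trans ?_
    calc ∏ i, hs (R i (c i) (z i).1 (z i).2) ≤ ∏ i, (CQ * L i) ^ (2 * D i) := by
          refine prod_le_prod (fun i _ => hs_nonneg _) fun i _ => ?_
          have := hc i
          rw [mem_range] at this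
          exact (hQ i).2.2.2.2.2 _ _ _ (by omega)
      _ = CQ ^ (∑ i, 2 * D i) * (∏ i, L i ^ D i) ^ 2 := by
          rw [← prod_L, ← prod_pow_eq_pow_sum, ← prod_mul_distrib]
          exact prod_congr rfl fun i _ => mul_pow _ _ _
      _ ≤ CQ ^ (2 * (m * d)) * (∏ i, L i ^ D i) ^ 2 := by
          refine mul_le_mul_of_nonneg_right (pow_le_pow_right₀ hCQ ?_) hPL
          calc ∑ i, 2 * D i ≤ ∑ _i : Fin m, 2 * d := sum_le_sum fun i _ => Nat.mul_le_mul_left _ (D_le hk i)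
            _ = 2 * (m * d) := by simp; ring
  refine (len_sum _ _).trans ((sum_le_sum h1).trans ?_)
  rw [sum_const, nsmul_eq_mul]
  exact mul_le_mul_of_nonneg_right (card_CC hD hk) (by positivity)

/-- the value as a sum over `n0` -/
noncomputable def Tn (a b : Fin 2 → 𝓞 K) (D k : Fin m → ℕ) (F : NN D → MvPolynomial (Fin 2) (𝓞 K)) (r : Fin m → Bool)
    (x h : Ix m → K) (E : Ix m → PowerSeries K) (n0 : N1 D) : MvPowerSeries (Ix m) K :=
  (∏ i, (xF x h (some i, 0) * xF x h (none, 0) ^ (4 ^ k i)) ^ (n0 i : ℕ)) *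
    ∑ κ ∈ KB D, (GB a b D k F r n0 κ).eval₂ (gR K m) (fun j => xF x h (none, j)) *
      ∏ i, (xF x h (some i, 1) ^ (κ i).1 * if (κ i).2 then hR h E (some i, 1) * hR h E (none, 1) else 1)

/-- the term of the second expansion -/
noncomputable def Te (k : Fin m → ℕ) {D : Fin m → ℕ} (x h : Ix m → K) (E : Ix m → PowerSeries K) (n0 : N1 D)
    (Q : Fin m → Polynomial (𝓞 K)) (G : MvPolynomial (Fin 2) (𝓞 K)) (e : Fin m → Bool) (z : Fin m → ℕ × ℕ) :
    MvPowerSeries (Ix m) K :=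
  xF x h (none, 0) ^ (∑ i, 4 ^ k i * (n0 i : ℕ)) * G.eval₂ (gR K m) (fun j => xF x h (none, j)) *
    (hR h E (none, 1) ^ (∑ i, if e i then 1 else 0) *
      ∏ i, ((Xt x h (some i, 0) ^ (n0 i : ℕ)).toMvPowerSeries (some i, 0) *
        (Xt x h (some i, 1) ^ (z i).2 * Ht h E (some i, 1) ^ (if e i then 1 else 0) *
          QS (Q i) (Xt x h (some i, 1)) ^ (z i).1).toMvPowerSeries (some i, 1)))

lemma Tn_eq (a b : Fin 2 → 𝓞 K) (D k : Fin m → ℕ) (F : NN D → MvPolynomial (Fin 2) (𝓞 K)) (r : Fin m → Bool)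
    (x h : Ix m → K) (E : Ix m → PowerSeries K) (n0 : N1 D) {N : ℕ} {CQ : ℝ}
    {Q : Fin m → Polynomial (𝓞 K)} {L : Fin m → ℝ} {R : Fin m → ℕ → ℕ → ℕ → 𝓞 K}
    (hQ : ∀ i, Qad N CQ (Q i) (L i) (2 * D i) (R i)) :
    gR K m (∏ i, (Q i).leadingCoeff ^ (2 * D i)) * Tn a b D k F r x h E n0 =
      ∑ e : Fin m → Bool, ∑ z ∈ ZZ D N, Te k x h E n0 Q (GZ D R (GB a b D k F r n0) e z) e z := by
  unfold Tn
  have h1 := key_id (gR K m) (fun j => xF x h (none, j)) (fun i => xF x h (some i, 1)) (fun i => hR h E (some i, 1))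
    (hR h E (none, 1)) (GB a b D k F r n0) D hQ
  rw [mul_left_comm, h1, mul_sum]
  refine sum_congr rfl fun e _ => ?_
  rw [mul_sum]
  refine sum_congr rfl fun z _ => ?_
  rw [rearr (fun i => xF x h (some i, 0)) (xF x h (none, 0)) (fun i => 4 ^ k i) (fun i => (n0 i : ℕ))
    ((GZ D R (GB a b D k F r n0) e z).eval₂ (gR K m) (fun j => xF x h (none, j)))
    (fun i => xF x h (some i, 1) ^ (z i).2 * ((Q i).eval₂ (gR K m) (xF x h (some i, 1))) ^ (z i).1)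
    (fun i => hR h E (some i, 1)) (hR h E (none, 1)) (fun _ => 1) e]
  unfold Te
  congr 2
  refine prod_congr rfl fun i _ => ?_
  rw [map_mul, map_mul, map_pow, map_pow, map_pow, map_pow, QS_mv, ← xF_eq, ← xF_eq, ← hR_eq, pow_one]
  have e1 : (if e i = true then hR h E (some i, 1) else 1) = hR h E (some i, 1) ^ (if e i = true then 1 else 0) := by
    split_ifs
    · rw [pow_one]
    · rw [pow_zero]
  rw [e1]
  ring

lemma exp_le {k : Fin m → ℕ} {τ : ℕ} (l s : Fin m → ℕ) (h : τ ≤ ∑ i, 4 ^ k i * l i) :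
    τ - ∑ i, 4 ^ k i * s i ≤ ∑ i, 4 ^ k i * (l i - s i) := by
  have h1 : ∑ i, 4 ^ k i * l i ≤ ∑ i, 4 ^ k i * (l i - s i) + ∑ i, 4 ^ k i * s i := by
    rw [← sum_add_distrib]
    refine sum_le_sum fun i _ => ?_
    rw [← mul_add]
    exact Nat.mul_le_mul_left _ (by omega)
  omega

/-- bound of a term of the second expansion -/
lemma Te_bound {w : AbsoluteValue K ℝ} {a b : 𝓞 K} {A₀ C₂ : ℝ} {x h : Ix m → K} {E : Ix m → PowerSeries K}
    (hDt : DatV w a b A₀ C₂ x h E) {D k : Fin m → ℕ} {d : ℕ} (hd : 1 ≤ d) (hk : ∀ i, D i * 4 ^ k i = d)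
    (n0 : N1 D) {N : ℕ} {CQ : ℝ}
    {Q : Fin m → Polynomial (𝓞 K)} {L : Fin m → ℝ} {R : Fin m → ℕ → ℕ → ℕ → 𝓞 K}
    (hQ : ∀ i, Qad N CQ (Q i) (L i) (2 * D i) (R i)) {ρ : ℝ} (hρ0 : 0 < ρ) (hρ1 : ρ ≤ 1)
    (hq : ∀ i, w ((Q i).eval₂ (algebraMap (𝓞 K) K) (x (some i, 1))) ≤ ρ ^ (4 ^ k i))
    {Y : ℝ} (hY1 : 5 * (1 + A₀) ≤ Y) (hY2 : C₂ ≤ Y) (hY3 : 2 ≤ Y) (hY4 : (N : ℝ) + 1 ≤ Y)
    (G : MvPolynomial (Fin 2) (𝓞 K)) (hG0 : G.degreeOf 0 ≤ d) (hG1 : G.degreeOf 1 ≤ d + 2 * m * d)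
    (e : Fin m → Bool) (z : Fin m → ℕ × ℕ) (hz : z ∈ ZZ D N) {τ : ℕ} (hτ : τ ≤ ∑ i, 4 ^ k i * (z i).1) (s : Ix m →₀ ℕ) :
    w (MvPowerSeries.coeff s (Te k x h E n0 Q G e z)) ≤
      len G * Y ^ ((5 * m + 2) * d + N * m + 2 * (m * d) + (N + 2) * ∑ t, s t) * (∏ i, L i ^ D i) ^ 2 *
        ρ ^ (τ - ∑ i, 4 ^ k i * s (some i, 1)) *
        BT D d (N + 2) (fun t => max 1 (w (x t))) (fun i => max 1 (w (x (some i, 0) * x (none, 0) ^ (4 ^ k i)))) s := by
  have hA00 := A0_nonneg hDt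
  have hC₃ : 1 ≤ 5 * (1 + A₀) := by linarith
  have hC₂ : 1 ≤ C₂ := hDt.1
  have hY0 : 1 ≤ Y := by linarith
  have hL1 : ∀ i, 1 ≤ L i := fun i => (hQ i).2.2.1
  have hz' : ∀ i, (z i).1 ≤ 2 * D i ∧ (z i).2 < N := by
    intro i
    unfold ZZ at hz
    rw [Fintype.mem_piFinset] at hz
    have h2 := mem_product.1 (hz i)
    rw [mem_range, mem_range] at h2
    exact ⟨by omega, h2.2⟩
  have hδ0 : ∀ i, 0 < ρ ^ (4 ^ k i) := fun i => by positivity
  have hδ1 : ∀ i, ρ ^ (4 ^ k i) ≤ 1 := fun i => pow_le_one₀ hρ0.le hρ1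
  have h1 := arch_BT hDt hd hk G hG0 hG1 n0 (q_le e)
    (fun i => Xt x h (some i, 1) ^ (z i).2 * Ht h E (some i, 1) ^ (if e i then 1 else 0) *
          QS (Q i) (Xt x h (some i, 1)) ^ (z i).1) s (c := N + 2) (by omega)
    (fun i => Y ^ ((z i).2 + (if e i then 1 else 0) + (z i).1 + (N + 2) * s (some i, 1)) *
      (ρ ^ (4 ^ k i)) ^ ((z i).1 - s (some i, 1)) * L i ^ (z i).1)
    (fun i => by
      have := hL1 i
      positivity)
    (fun i => (z i).2 + 2 * (if e i then 1 else 0) + (N + 2) * s (some i, 1))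
    (fun i => by
      have := (hz' i).2
      split_ifs <;> omega)
    (fun i => fs_bound hDt (some i) (hQ i).2.1 (hL1 i) (hQ i).2.2.2.1 (hδ0 i) (hδ1 i) (hq i) hY1 hY2 hY3 hY4 _ _ _ _)
  refine h1.trans ?_
  have hM : ∀ t, 1 ≤ max 1 (w (x t)) := fun t => le_max_left _ _
  have hBT := BT_nonneg (D := D) (d := d) (c := N + 2) hM
      (U := fun i => max 1 (w (x (some i, 0) * x (none, 0) ^ (4 ^ k i)))) (fun i => le_max_left _ _) s
  refine mul_le_mul_of_nonneg_right ?_ hBT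
  -- the constants
  have g1 : (2 : ℝ) ^ ((2 * m + 1) * d) * (5 * (1 + A₀)) ^ ((3 * m + 1) * d) * C₂ ^ s (none, 1) ≤
      Y ^ ((5 * m + 2) * d + s (none, 1)) := by
    calc (2 : ℝ) ^ ((2 * m + 1) * d) * (5 * (1 + A₀)) ^ ((3 * m + 1) * d) * C₂ ^ s (none, 1) ≤
        Y ^ ((2 * m + 1) * d) * Y ^ ((3 * m + 1) * d) * Y ^ s (none, 1) := by gcongr
      _ = Y ^ ((5 * m + 2) * d + s (none, 1)) := by
          rw [← pow_add, ← pow_add]
          congr 1
          ring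
  have g2 : ∏ i, (Y ^ ((z i).2 + (if e i then 1 else 0) + (z i).1 + (N + 2) * s (some i, 1)) *
      (ρ ^ (4 ^ k i)) ^ ((z i).1 - s (some i, 1)) * L i ^ (z i).1) ≤
      Y ^ (N * m + 2 * (m * d) + (N + 2) * ∑ i, s (some i, 1)) * ρ ^ (τ - ∑ i, 4 ^ k i * s (some i, 1)) *
        (∏ i, L i ^ D i) ^ 2 := by
    rw [prod_mul_distrib, prod_mul_distrib, prod_pow_eq_pow_sum]
    have e1 : ∏ i, (ρ ^ (4 ^ k i)) ^ ((z i).1 - s (some i, 1)) = ρ ^ (∑ i, 4 ^ k i * ((z i).1 - s (some i, 1))) := by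
      rw [← prod_pow_eq_pow_sum]
      exact prod_congr rfl fun i _ => by rw [← pow_mul]
    rw [e1]
    have e2 : ∑ i, ((z i).2 + (if e i then 1 else 0) + (z i).1 + (N + 2) * s (some i, 1)) ≤
        N * m + 2 * (m * d) + (N + 2) * ∑ i, s (some i, 1) := by
      rw [mul_sum]
      calc ∑ i, ((z i).2 + (if e i then 1 else 0) + (z i).1 + (N + 2) * s (some i, 1)) ≤
          ∑ i, (N + 2 * d + (N + 2) * s (some i, 1)) := by
            refine sum_le_sum fun i _ => ?_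
            have := hz' i
            have := D_le hk i
            split_ifs <;> omega
        _ = _ := by
            rw [sum_add_distrib, sum_const, card_univ, Fintype.card_fin, smul_eq_mul]
            ring
    have e3 : ρ ^ (∑ i, 4 ^ k i * ((z i).1 - s (some i, 1))) ≤ ρ ^ (τ - ∑ i, 4 ^ k i * s (some i, 1)) :=
      pow_le_pow_of_le_one hρ0.le hρ1 (exp_le (fun i => (z i).1) (fun i => s (some i, 1)) hτ)
    have e4 : ∏ i, L i ^ (z i).1 ≤ (∏ i, L i ^ D i) ^ 2 := by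
      rw [← prod_L]
      exact prod_le_prod (fun i _ => pow_nonneg (zero_le_one.trans (hL1 i)) _) fun i _ =>
        pow_le_pow_right₀ (hL1 i) (hz' i).1
    have e5 : 0 ≤ ∏ i, L i ^ (z i).1 := prod_nonneg fun i _ => pow_nonneg (zero_le_one.trans (hL1 i)) _
    exact mul_le_mul (mul_le_mul (pow_le_pow_right₀ hY0 e2) e3 (by positivity) (by positivity)) e4 e5 (by positivity)
  have h4 : s (none, 1) + (N + 2) * ∑ i, s (some i, 1) ≤ (N + 2) * ∑ t, s t := by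
    have h5 : s (none, 1) + ∑ i, s (some i, 1) ≤ ∑ t, s t := by
      rw [sum_Ix, Fin.sum_univ_two]
      have h5 : ∑ i, s (some i, 1) ≤ ∑ i, ∑ j, s (some i, j) := sum_le_sum fun i _ => by
        rw [Fin.sum_univ_two]; omega
      omega
    calc s (none, 1) + (N + 2) * ∑ i, s (some i, 1) ≤ (N + 2) * s (none, 1) + (N + 2) * ∑ i, s (some i, 1) := by
          have : s (none, 1) ≤ (N + 2) * s (none, 1) := Nat.le_mul_of_pos_left _ (by omega)
          omega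
      _ = (N + 2) * (s (none, 1) + ∑ i, s (some i, 1)) := by ring
      _ ≤ _ := Nat.mul_le_mul_left _ h5
  have hl : 0 ≤ len G := len_nonneg _
  have hPL : 0 ≤ (∏ i, L i ^ D i) ^ 2 := by positivity
  have g3 : 0 ≤ ∏ i, (Y ^ ((z i).2 + (if e i then 1 else 0) + (z i).1 + (N + 2) * s (some i, 1)) *
      (ρ ^ (4 ^ k i)) ^ ((z i).1 - s (some i, 1)) * L i ^ (z i).1) := prod_nonneg fun i _ => by
    have := hL1 i
    positivity
  calc len G * (2 ^ ((2 * m + 1) * d) * (5 * (1 + A₀)) ^ ((3 * m + 1) * d) * C₂ ^ s (none, 1)) *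
      ∏ i, (Y ^ ((z i).2 + (if e i then 1 else 0) + (z i).1 + (N + 2) * s (some i, 1)) *
      (ρ ^ (4 ^ k i)) ^ ((z i).1 - s (some i, 1)) * L i ^ (z i).1) ≤
      len G * Y ^ ((5 * m + 2) * d + s (none, 1)) * (Y ^ (N * m + 2 * (m * d) + (N + 2) * ∑ i, s (some i, 1)) *
        ρ ^ (τ - ∑ i, 4 ^ k i * s (some i, 1)) * (∏ i, L i ^ D i) ^ 2) :=
        mul_le_mul (mul_le_mul_of_nonneg_left g1 hl) g2 g3 (by positivity)
    _ = len G * Y ^ (((5 * m + 2) * d + N * m + 2 * (m * d)) + (s (none, 1) + (N + 2) * ∑ i, s (some i, 1))) *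
        (∏ i, L i ^ D i) ^ 2 * ρ ^ (τ - ∑ i, 4 ^ k i * s (some i, 1)) := by
        have e1 : ((5 * m + 2) * d + N * m + 2 * (m * d)) + (s (none, 1) + (N + 2) * ∑ i, s (some i, 1)) =
          ((5 * m + 2) * d + s (none, 1)) + (N * m + 2 * (m * d) + (N + 2) * ∑ i, s (some i, 1)) := by ring
        rw [e1, pow_add Y ((5 * m + 2) * d + s (none, 1))]
        ring
    _ ≤ _ := by
        refine mul_le_mul_of_nonneg_right (mul_le_mul_of_nonneg_right (mul_le_mul_of_nonneg_left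
          (pow_le_pow_right₀ hY0 (by omega)) hl) hPL) (by positivity)

/-- bound of the part of the value which belongs to `n0` -/
lemma Tn_bound {w : AbsoluteValue K ℝ} {a b : Fin 2 → 𝓞 K} {A₀ C₂ : ℝ} {x h : Ix m → K} {E : Ix m → PowerSeries K}
    (hDt : DatV w (a 1) (b 1) A₀ C₂ x h E)
    (hlow : ∀ y : 𝓞 K, y ≠ 0 → 1 ≤ w (y : K) * hs y ^ Module.finrank ℚ K)
    {CM : ℝ} (hMM : MM a b CM) (hCM : 1 ≤ CM) {D k : Fin m → ℕ} {d : ℕ} (hd : 1 ≤ d) (hD : ∀ i, 1 ≤ D i)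
    (hk : ∀ i, D i * 4 ^ k i = d) (F : NN D → MvPolynomial (Fin 2) (𝓞 K)) {Λ : ℝ} (hΛ1 : 1 ≤ Λ)
    (hF : ∀ n j, (F n).degreeOf j ≤ d) (hΛ : ∀ n, len (F n) ≤ Λ) (r : Fin m → Bool)
    (n0 : N1 D) {N : ℕ} {CQ : ℝ} (hCQ : 1 ≤ CQ)
    {Q : Fin m → Polynomial (𝓞 K)} {L : Fin m → ℝ} {R : Fin m → ℕ → ℕ → ℕ → 𝓞 K}
    (hQ : ∀ i, Qad N CQ (Q i) (L i) (2 * D i) (R i)) {τ : ℕ} (hCn : CnB a b D k N τ R F) {ρ : ℝ} (hρ0 : 0 < ρ)
    (hρ1 : ρ ≤ 1) (hq : ∀ i, w ((Q i).eval₂ (algebraMap (𝓞 K) K) (x (some i, 1))) ≤ ρ ^ (4 ^ k i))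
    {Y : ℝ} (hY1 : 5 * (1 + A₀) ≤ Y) (hY2 : C₂ ≤ Y) (hY3 : 6 ≤ Y) (hY4 : (N : ℝ) + 1 ≤ Y) (hY5 : CQ ≤ Y)
    (hY6 : CM ≤ Y) (s : Ix m →₀ ℕ) :
    w (MvPowerSeries.coeff s (Tn a b D k F r x h E n0)) ≤
      Y ^ ((13 * m + 2) * d + (N + 2) * m + (N + 2) * ∑ t, s t) * Λ *
        (∏ i, L i ^ D i) ^ (4 + 2 * Module.finrank ℚ K) * ρ ^ (τ - ∑ i, 4 ^ k i * s (some i, 1)) *
        BT D d (N + 2) (fun t => max 1 (w (x t))) (fun i => max 1 (w (x (some i, 0) * x (none, 0) ^ (4 ^ k i)))) s := by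
  classical
  have hL1 : ∀ i, 1 ≤ L i := fun i => (hQ i).2.2.1
  have hY0 : 1 ≤ Y := by linarith
  have hM : ∀ t, 1 ≤ max 1 (w (x t)) := fun t => le_max_left _ _
  have hBT := BT_nonneg (D := D) (d := d) (c := N + 2) hM
      (U := fun i => max 1 (w (x (some i, 0) * x (none, 0) ^ (4 ^ k i)))) (fun i => le_max_left _ _) s
  set BB := BT D d (N + 2) (fun t => max 1 (w (x t))) (fun i => max 1 (w (x (some i, 0) * x (none, 0) ^ (4 ^ k i)))) s
    with hBB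
  set PL := ∏ i, L i ^ D i with hPLdef
  have hPL1 : 1 ≤ PL := by
    rw [hPLdef]
    exact one_le_prd (fun i _ => one_le_pow₀ (hL1 i))
  set RR := ρ ^ (τ - ∑ i, 4 ^ k i * s (some i, 1)) with hRR
  have hRR0 : 0 ≤ RR := by positivity
  have hCM0 : 0 ≤ CM := by linarith
  have hCQ0 : 0 ≤ CQ := by linarith
  -- the leading coefficients
  set lam : 𝓞 K := ∏ i, (Q i).leadingCoeff ^ (2 * D i) with hlam
  have hlam1 : 1 ≤ w (lam : K) * PL ^ (2 * Module.finrank ℚ K) := by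
    have e1 : w (lam : K) * PL ^ (2 * Module.finrank ℚ K) =
        ∏ i, (w ((Q i).leadingCoeff : K) * L i ^ Module.finrank ℚ K) ^ (2 * D i) := by
      have e2 : (lam : K) = ∏ i, ((Q i).leadingCoeff : K) ^ (2 * D i) := by
        rw [hlam]
        have := map_prod (algebraMap (𝓞 K) K) (fun i => (Q i).leadingCoeff ^ (2 * D i)) univ
        refine this.trans (prod_congr rfl fun i _ => map_pow _ _ _)
      rw [e2, map_prod, hPLdef, ← prod_pow, ← prod_mul_distrib]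
      refine prod_congr rfl fun i _ => ?_
      rw [map_pow, mul_pow, ← pow_mul, ← pow_mul]
      congr 2
      ring
    rw [e1]
    refine one_le_prd fun i _ => one_le_pow₀ ?_
    have hQ0 : (Q i).leadingCoeff ≠ 0 := by
      intro h0
      rw [Polynomial.leadingCoeff_eq_zero] at h0
      have := (hQ i).1
      rw [h0] at this
      simp at this
    refine (hlow _ hQ0).trans (mul_le_mul_of_nonneg_left ?_ (apply_nonneg w _))
    exact pow_le_pow_left₀ (hs_nonneg _) ((hQ i).2.2.2.1 _) _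
  -- the expansion
  have h1 : w (lam : K) * w (MvPowerSeries.coeff s (Tn a b D k F r x h E n0)) =
      w (MvPowerSeries.coeff s (∑ e : Fin m → Bool, ∑ z ∈ ZZ D N,
        Te k x h E n0 Q (GZ D R (GB a b D k F r n0) e z) e z)) := by
    rw [← Tn_eq a b D k F r x h E n0 hQ, ← map_mul]
    congr 1
    show _ = MvPowerSeries.coeff s (MvPowerSeries.C _ * _)
    rw [MvPowerSeries.coeff_C_mul]
  have hlenZ : ∀ (e : Fin m → Bool) (z : Fin m → ℕ × ℕ), len (GZ D R (GB a b D k F r n0) e z) ≤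
      Y ^ (5 * (m * d)) * (PL ^ 2 * Λ) := by
    intro e z
    have hΛ0 : 0 ≤ Λ := by linarith
    have h2 := GZ_len hD hk hCQ hQ (GB a b D k F r n0)
      (fun κ => GB_len hMM hCM D k hk F hΛ0 hΛ r n0 κ) e z
    refine h2.trans ?_
    calc (6 : ℝ) ^ (m * d) * ((CQ ^ (2 * (m * d)) * PL ^ 2) * (2 ^ (m * d) * (Λ * CM ^ (m * d)))) =
        (6 ^ (m * d) * CQ ^ (2 * (m * d)) * 2 ^ (m * d) * CM ^ (m * d)) * (PL ^ 2 * Λ) := by ring
      _ ≤ (Y ^ (m * d) * Y ^ (2 * (m * d)) * Y ^ (m * d) * Y ^ (m * d)) * (PL ^ 2 * Λ) := by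
          have h26 : (2 : ℝ) ≤ Y := by linarith
          gcongr
      _ = _ := by
          rw [← pow_add, ← pow_add, ← pow_add]
          congr 2
          ring
  set Z := Y ^ (5 * (m * d)) * (PL ^ 2 * Λ) * Y ^ ((5 * m + 2) * d + N * m + 2 * (m * d) + (N + 2) * ∑ t, s t) *
    PL ^ 2 * RR * BB with hZ
  have hZ0 : 0 ≤ Z := by
    have : 0 ≤ Λ := by linarith
    positivity
  have hterm : ∀ (e : Fin m → Bool), ∀ z ∈ ZZ D N, w (MvPowerSeries.coeff s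
      (Te k x h E n0 Q (GZ D R (GB a b D k F r n0) e z) e z)) ≤ Z := by
    intro e z hz
    by_cases hτ : τ ≤ ∑ i, 4 ^ k i * (z i).1
    · have h2 := Te_bound hDt hd hk n0 hQ hρ0 hρ1 hq hY1 hY2 (by linarith) hY4 (GZ D R (GB a b D k F r n0) e z)
        (GZ_degree D R _ e z 0 d fun κ => GB_degree0 hMM D k F hF r n0 κ)
        (GZ_degree D R _ e z 1 _ fun κ => GB_degree1 hMM D k hk F hF r n0 κ) e z hz hτ s
      refine h2.trans ?_
      have hl := hlenZ e z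
      have hl0 : 0 ≤ len (GZ D R (GB a b D k F r n0) e z) := len_nonneg _
      rw [hZ]
      gcongr
    · push Not at hτ
      have hz' : ∀ i, (z i).2 < N := by
        intro i
        unfold ZZ at hz
        rw [Fintype.mem_piFinset] at hz
        have h2 := mem_product.1 (hz i)
        rw [mem_range, mem_range] at h2
        exact h2.2
      have h2 : GZ D R (GB a b D k F r n0) e z = 0 := hCn r n0 e z hτ hz'
      rw [h2]
      unfold Te
      rw [MvPolynomial.eval₂_zero, mul_zero, zero_mul, map_zero, map_zero]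
      exact hZ0
  have h2 : w (lam : K) * w (MvPowerSeries.coeff s (Tn a b D k F r x h E n0)) ≤
      2 ^ m * ((6 ^ (m * d) * ((N : ℝ) + 1) ^ m) * Z) := by
    rw [h1, map_sum]
    refine (v_sum _ _).trans ?_
    have h3 : ∀ e ∈ (univ : Finset (Fin m → Bool)), w (MvPowerSeries.coeff s (∑ z ∈ ZZ D N,
        Te k x h E n0 Q (GZ D R (GB a b D k F r n0) e z) e z)) ≤ (6 ^ (m * d) * ((N : ℝ) + 1) ^ m) * Z := by
      intro e _
      rw [map_sum]
      refine (v_sum _ _).trans ((sum_le_sum fun z hz => hterm e z hz).trans ?_)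
      rw [sum_const, nsmul_eq_mul]
      exact mul_le_mul_of_nonneg_right (card_ZZ hD hk N) hZ0
    refine (sum_le_sum h3).trans (le_of_eq ?_)
    rw [sum_const, card_univ, nsmul_eq_mul]
    simp
  have h3 : w (MvPowerSeries.coeff s (Tn a b D k F r x h E n0)) ≤
      (2 ^ m * ((6 ^ (m * d) * ((N : ℝ) + 1) ^ m) * Z)) * PL ^ (2 * Module.finrank ℚ K) := by
    have h0 : 0 ≤ w (MvPowerSeries.coeff s (Tn a b D k F r x h E n0)) := apply_nonneg w _
    calc w (MvPowerSeries.coeff s (Tn a b D k F r x h E n0)) =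
        w (MvPowerSeries.coeff s (Tn a b D k F r x h E n0)) * 1 := (mul_one _).symm
      _ ≤ w (MvPowerSeries.coeff s (Tn a b D k F r x h E n0)) * (w (lam : K) * PL ^ (2 * Module.finrank ℚ K)) :=
          mul_le_mul_of_nonneg_left hlam1 h0
      _ = (w (lam : K) * w (MvPowerSeries.coeff s (Tn a b D k F r x h E n0))) * PL ^ (2 * Module.finrank ℚ K) := by ring
      _ ≤ _ := mul_le_mul_of_nonneg_right h2 (by positivity)
  refine h3.trans ?_
  have hΛ0 : 0 ≤ Λ := by linarith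
  have g1 : (2 : ℝ) ^ m * (6 ^ (m * d) * ((N : ℝ) + 1) ^ m) ≤ Y ^ (2 * m + m * d) := by
    have h26 : (2 : ℝ) ≤ Y := by linarith
    calc (2 : ℝ) ^ m * (6 ^ (m * d) * ((N : ℝ) + 1) ^ m) ≤ Y ^ m * (Y ^ (m * d) * Y ^ m) := by gcongr
      _ = _ := by
          rw [← pow_add, ← pow_add]
          congr 1
          ring
  calc (2 ^ m * ((6 ^ (m * d) * ((N : ℝ) + 1) ^ m) * Z)) * PL ^ (2 * Module.finrank ℚ K) =
      (2 ^ m * (6 ^ (m * d) * ((N : ℝ) + 1) ^ m)) * (Z * PL ^ (2 * Module.finrank ℚ K)) := by ring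
    _ ≤ Y ^ (2 * m + m * d) * (Z * PL ^ (2 * Module.finrank ℚ K)) :=
        mul_le_mul_of_nonneg_right g1 (by positivity)
    _ = (Y ^ (2 * m + m * d) * Y ^ (5 * (m * d)) *
          Y ^ ((5 * m + 2) * d + N * m + 2 * (m * d) + (N + 2) * ∑ t, s t)) * Λ *
          (PL ^ 2 * PL ^ 2 * PL ^ (2 * Module.finrank ℚ K)) * RR * BB := by
        rw [hZ]; ring
    _ = _ := by
        rw [← pow_add, ← pow_add, ← pow_add, ← pow_add]
        congr 5
        ring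

theorem t_LCB (hMMF : S_MMF) (hV : S_VAM) : S_LCB := by
  classical
  intro K _ _ a b m N C₁ CQ hC₁ hCQ
  obtain ⟨CM, hCM, hMM'⟩ := hMMF K a b
  have hMM : MM a b CM := hMM'
  have hA0 : 0 ≤ hs (a 1) + hs (b 1) := add_nonneg (hs_nonneg _) (hs_nonneg _)
  obtain ⟨Y, hY⟩ : ∃ Y : ℝ, Y = 6 + ((N : ℝ) + 1) + CQ + CM + 5 * (1 + (hs (a 1) + hs (b 1))) + 2 * C₁ := ⟨_, rfl⟩
  have hN0 : (0 : ℝ) ≤ N := Nat.cast_nonneg N
  have hY0 : 1 ≤ Y := by rw [hY]; linarith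
  obtain ⟨EE, hEE⟩ : ∃ EE : ℕ, EE = (N + 16) * m + N + 4 := ⟨_, rfl⟩
  refine ⟨max (max ⌈Y ^ EE⌉₊ (N + 2)) (4 + 2 * Module.finrank ℚ K), by omega, ?_⟩
  set C := max (max ⌈Y ^ EE⌉₊ (N + 2)) (4 + 2 * Module.finrank ℚ K) with hC
  have hC1 : Y ^ EE ≤ C := (Nat.le_ceil _).trans (by
    exact_mod_cast (le_max_left _ _).trans (le_max_left _ _))
  have hC2 : N + 2 ≤ C := (le_max_right _ _).trans (le_max_left _ _)
  have hC3 : 4 + 2 * Module.finrank ℚ K ≤ C := le_max_right _ _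
  intro D k d τ hd hD hk F Λ hΛ1 hF hΛ Q L R hQ hCn x h E hE v ρ hρ0 hρ1 hq r s
  obtain ⟨w, hw, hlow, hdat⟩ := place v (a 1) (b 1)
  have hDt := hdat m C₁ x h E hC₁ hE
  simp only [hw] at hq ⊢
  have hL1 : ∀ i, 1 ≤ L i := fun i => (hQ i).2.2.1
  have hPL1 : 1 ≤ ∏ i, L i ^ D i := one_le_prd (fun i _ => one_le_pow₀ (hL1 i))
  have hM : ∀ t, 1 ≤ max 1 (w (x t)) := fun t => le_max_left _ _
  have hVm : Vm a b D k (gR K m) (xF x h) (hR h E) r F = ∑ n0 : N1 D, Tn a b D k F r x h E n0 :=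
    (hV K a b m D k _ (gR K m) (xF x h) (hR h E) (onM hE) r F).1
  rw [hVm, map_sum]
  have h1 := fun n0 : N1 D => Tn_bound hDt hlow hMM hCM hd hD hk F hΛ1 hF hΛ r n0 hCQ hQ hCn hρ0 hρ1 hq
    (Y := Y) (by rw [hY]; linarith) (by rw [hY]; linarith) (by rw [hY]; linarith) (by rw [hY]; linarith)
    (by rw [hY]; linarith) (by rw [hY]; linarith) s
  refine (v_sum _ _).trans ((sum_le_sum fun n0 _ => h1 n0).trans ?_)
  rw [sum_const, card_univ, nsmul_eq_mul]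
  have hBT := BT_nonneg (D := D) (d := d) (c := N + 2) hM
      (U := fun i => max 1 (w (x (some i, 0) * x (none, 0) ^ (4 ^ k i)))) (fun i => le_max_left _ _) s
  have hBm := BT_mono (D := D) (d := d) hC2 hM
      (U := fun i => max 1 (w (x (some i, 0) * x (none, 0) ^ (4 ^ k i)))) (fun i => le_max_left _ _) s
  have hcard := card_N1 hk
  have hΛ0 : 0 ≤ Λ := by linarith
  have g1 : (Fintype.card (N1 D) : ℝ) * Y ^ ((13 * m + 2) * d + (N + 2) * m + (N + 2) * ∑ t, s t) ≤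
      (C : ℝ) ^ (d + ∑ t, s t) := by
    have hY2 : (2 : ℝ) ≤ Y := by rw [hY]; linarith
    calc (Fintype.card (N1 D) : ℝ) * Y ^ ((13 * m + 2) * d + (N + 2) * m + (N + 2) * ∑ t, s t) ≤
        Y ^ (m * d) * Y ^ ((13 * m + 2) * d + (N + 2) * m + (N + 2) * ∑ t, s t) := by
          refine mul_le_mul_of_nonneg_right (hcard.trans ?_) (by positivity)
          gcongr
      _ = Y ^ (m * d + ((13 * m + 2) * d + (N + 2) * m + (N + 2) * ∑ t, s t)) := (pow_add _ _ _).symm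
      _ ≤ Y ^ (EE * (d + ∑ t, s t)) := by
          refine pow_le_pow_right₀ hY0 ?_
          have h8 : m ≤ m * d := Nat.le_mul_of_pos_right m hd
          have h9 : (N + 2) * m ≤ (N + 2) * (m * d) := Nat.mul_le_mul_left _ h8
          have h10 : (N + 2) * (∑ t, s t) ≤ EE * ∑ t, s t := Nat.mul_le_mul_right _ (by rw [hEE]; nlinarith)
          have h11 : m * d + ((13 * m + 2) * d + (N + 2) * (m * d)) ≤ EE * d := by
            rw [hEE]
            nlinarith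
          rw [mul_add]
          omega
      _ = (Y ^ EE) ^ (d + ∑ t, s t) := pow_mul _ _ _
      _ ≤ _ := pow_le_pow_left₀ (by positivity) hC1 _
  have g2 : (∏ i, L i ^ D i) ^ (4 + 2 * Module.finrank ℚ K) ≤ (∏ i, L i ^ D i) ^ C := pow_le_pow_right₀ hPL1 hC3
  have hPL0 : 0 ≤ ∏ i, L i ^ D i := by linarith
  have hρn : 0 ≤ ρ ^ (τ - ∑ i, 4 ^ k i * s (some i, 1)) := by positivity
  set RR := ρ ^ (τ - ∑ i, 4 ^ k i * s (some i, 1)) with hRR
  set B1 := BT D d (N + 2) (fun t => max 1 (w (x t))) (fun i => max 1 (w (x (some i, 0) * x (none, 0) ^ (4 ^ k i)))) s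
    with hB1
  calc (Fintype.card (N1 D) : ℝ) * (Y ^ ((13 * m + 2) * d + (N + 2) * m + (N + 2) * ∑ t, s t) * Λ *
        (∏ i, L i ^ D i) ^ (4 + 2 * Module.finrank ℚ K) * RR * B1) =
      ((Fintype.card (N1 D) : ℝ) * Y ^ ((13 * m + 2) * d + (N + 2) * m + (N + 2) * ∑ t, s t)) * Λ *
        (∏ i, L i ^ D i) ^ (4 + 2 * Module.finrank ℚ K) * B1 * RR := by ring
    _ ≤ _ := by
        refine mul_le_mul_of_nonneg_right ?_ hρn
        refine mul_le_mul ?_ hBm hBT (by positivity)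
        refine mul_le_mul (mul_le_mul_of_nonneg_right g1 hΛ0) g2 (by positivity) (by positivity)

end Pool.Agent.J4H49.GE
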