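import Pool.Agent.J4H27.GE.Defs
import Pool.Agent.J4H71.GC.Loc

/-!
# Project GE (helper27): common part of the local bounds
-/

set_option autoImplicit false
set_option linter.unusedSectionVars false

open Finset NumberField

namespace Pool.Agent.J4H49.GE

open Pool.Agent.J4H27.GC Pool.Agent.J4H27.GE
open Pool.Agent.J4H71.GC (Pt Ht hR_eq prod_Ix sum_Ix NB NB.mul NB.one NB.pow na_h na_P na_H fin_sum fin_int fin_nat inf_le_hs)

section alg

variable {S : Type} [CommRing S] {m : ℕ}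

/-- rearrangement of a term of the expansion -/
lemma rearr (u : Fin m → S) (z : S) (a n : Fin m → ℕ) (G : S) (y h : Fin m → S) (h0 : S) (c : Fin m → ℕ) (e : Fin m → Bool) :
    (∏ i, (u i * z ^ a i) ^ n i) * (G * ∏ i, (y i ^ c i * if e i then h i * h0 else 1)) =
      z ^ (∑ i, a i * n i) * G * (h0 ^ (∑ i, if e i then 1 else 0) *
        ∏ i, (u i ^ n i * (y i ^ c i * if e i then h i else 1))) := by
  have h1 : ∏ i, (u i * z ^ a i) ^ n i = (∏ i, u i ^ n i) * z ^ (∑ i, a i * n i) := by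
    rw [← prod_pow_eq_pow_sum, ← prod_mul_distrib]
    exact prod_congr rfl fun i _ => by rw [mul_pow, pow_mul]
  have h2 : ∏ i, (y i ^ c i * if e i then h i * h0 else 1) =
      (∏ i, (y i ^ c i * if e i then h i else 1)) * h0 ^ (∑ i, if e i then 1 else 0) := by
    rw [← prod_pow_eq_pow_sum, ← prod_mul_distrib]
    refine prod_congr rfl fun i _ => ?_
    split_ifs
    · rw [pow_one, mul_assoc]
    · rw [pow_zero, mul_one, mul_one]
  have h3 : ∏ i, (u i ^ n i * (y i ^ c i * if e i then h i else 1)) =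
      (∏ i, u i ^ n i) * ∏ i, (y i ^ c i * if e i then h i else 1) := prod_mul_distrib
  rw [h1, h2, h3]
  ring

end alg

section formal

variable {K : Type} [Field K] [NumberField K] {m : ℕ}

/-- one-variable series of the coordinate `t` -/
noncomputable def Xt (x h : Ix m → K) (t : Ix m) : PowerSeries K :=
  PowerSeries.C (x t) + PowerSeries.C (csc x h t) * PowerSeries.X

lemma xF_eq (x h : Ix m → K) (t : Ix m) : xF x h t = (Xt x h t).toMvPowerSeries t := by
  unfold xF Xt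
  rw [map_add (PowerSeries.toMvPowerSeries t), map_mul (PowerSeries.toMvPowerSeries t),
    PowerSeries.toMvPowerSeries_C, PowerSeries.toMvPowerSeries_C, PowerSeries.toMvPowerSeries_X]

lemma Xt_one (x h : Ix m → K) (u : Option (Fin m)) : Xt x h (u, 1) = Pt x h (u, 1) := by
  unfold Xt Pt csc
  rw [if_neg (by simp)]

lemma Xt_zero (x h : Ix m → K) (u : Option (Fin m)) : Xt x h (u, 0) =
    PowerSeries.C (x (u, 0)) + PowerSeries.C (x (u, 0)) * PowerSeries.X := by
  unfold Xt csc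
  rw [if_pos rfl]

lemma gR_eq (c : 𝓞 K) (t : Ix m) : gR K m c = (PowerSeries.C (c : K)).toMvPowerSeries t := by
  rw [PowerSeries.toMvPowerSeries_C]
  rfl

lemma onM {a b : Fin 2 → 𝓞 K} {C₁ : ℝ} {x h : Ix m → K} {E : Ix m → PowerSeries K}
    (hE : Dat (a 1) (b 1) C₁ x h E) : OnM a b (gR K m) (xF x h) (hR h E) := by
  intro t
  have h1 : Ht h E (t, 1) ^ 2 = Pt x h (t, 1) ^ 3 + PowerSeries.C (a 1 : K) * Pt x h (t, 1) +
    PowerSeries.C (b 1 : K) := (hE.2 t).2.2.1
  rw [hR_eq, xF_eq, gR_eq (a 1) (t, 1), gR_eq (b 1) (t, 1), Xt_one, ← map_pow, ← map_pow, ← map_mul, ← map_add, ← map_add,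
    h1]

/-- the one-variable series of a term -/
noncomputable def YY (x h : Ix m → K) (E : Ix m → PowerSeries K) (p q : ℕ) (c : Fin 2 →₀ ℕ)
    (gs fs : Fin m → PowerSeries K) : Ix m → PowerSeries K
  | (none, j) => if j = 0 then Xt x h (none, 0) ^ (p + c 0) else
      Xt x h (none, 1) ^ c 1 * Ht h E (none, 1) ^ q
  | (some i, j) => if j = 0 then gs i else fs i

/-- the coefficients of a term -/
lemma expand (x h : Ix m → K) (E : Ix m → PowerSeries K) (G : MvPolynomial (Fin 2) (𝓞 K)) (p q : ℕ)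
    (gs fs : Fin m → PowerSeries K) (s : Ix m →₀ ℕ) :
    MvPowerSeries.coeff s (xF x h (none, 0) ^ p * G.eval₂ (gR K m) (fun j => xF x h (none, j)) *
      (hR h E (none, 1) ^ q * ∏ i, ((gs i).toMvPowerSeries (some i, 0) *
        (fs i).toMvPowerSeries (some i, 1)))) =
    ∑ c ∈ G.support, ((G.coeff c : 𝓞 K) : K) *
      (PowerSeries.coeff (s (none, 0)) (Xt x h (none, 0) ^ (p + c 0)) *
        PowerSeries.coeff (s (none, 1)) (Xt x h (none, 1) ^ c 1 * Ht h E (none, 1) ^ q) *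
        ∏ i, (PowerSeries.coeff (s (some i, 0)) (gs i) * PowerSeries.coeff (s (some i, 1)) (fs i))) := by
  rw [MvPolynomial.eval₂_eq', mul_sum, sum_mul, map_sum]
  refine sum_congr rfl fun c _ => ?_
  have h1 : xF x h (none, 0) ^ p * (gR K m (G.coeff c) * ∏ j, xF x h (none, j) ^ c j) *
      (hR h E (none, 1) ^ q * ∏ i, ((gs i).toMvPowerSeries (some i, 0) *
        (fs i).toMvPowerSeries (some i, 1))) =
      MvPowerSeries.C ((G.coeff c : 𝓞 K) : K) * ∏ t, (YY x h E p q c gs fs t).toMvPowerSeries t := by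
    rw [prod_Ix, Fin.prod_univ_two, Fin.prod_univ_two]
    have e1 : YY x h E p q c gs fs (none, 0) = Xt x h (none, 0) ^ (p + c 0) := by simp [YY]
    have e2 : YY x h E p q c gs fs (none, 1) = Xt x h (none, 1) ^ c 1 * Ht h E (none, 1) ^ q := by simp [YY]
    have e3 : ∏ i : Fin m, ∏ j : Fin 2, (YY x h E p q c gs fs (some i, j)).toMvPowerSeries (some i, j) =
        ∏ i, ((gs i).toMvPowerSeries (some i, 0) * (fs i).toMvPowerSeries (some i, 1)) := by
      refine prod_congr rfl fun i _ => ?_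
      rw [Fin.prod_univ_two]
      simp [YY]
    rw [e1, e2, e3, map_mul, map_pow, map_pow, map_pow, ← xF_eq, ← xF_eq, ← hR_eq, pow_add]
    show _ * (MvPowerSeries.C _ * _) * _ = _
    ring
  rw [h1, MvPowerSeries.coeff_C_mul, Pool.Agent.J4H49.GC.t_COEF, prod_Ix, Fin.prod_univ_two]
  have e1 : YY x h E p q c gs fs (none, 0) = Xt x h (none, 0) ^ (p + c 0) := by simp [YY]
  have e2 : YY x h E p q c gs fs (none, 1) = Xt x h (none, 1) ^ c 1 * Ht h E (none, 1) ^ q := by simp [YY]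
  have e3 : ∏ i : Fin m, ∏ j : Fin 2, PowerSeries.coeff (s (some i, j)) (YY x h E p q c gs fs (some i, j)) =
      ∏ i, (PowerSeries.coeff (s (some i, 0)) (gs i) * PowerSeries.coeff (s (some i, 1)) (fs i)) := by
    refine prod_congr rfl fun i _ => ?_
    rw [Fin.prod_univ_two]
    simp [YY]
  rw [e1, e2, e3]

end formal

/-! ### the coefficient polynomials -/

section GBfacts

variable {K : Type} [Field K] [NumberField K] {m : ℕ} {a b : Fin 2 → 𝓞 K} {CM : ℝ}

open Pool.Agent.J4H71.GC (MM)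

lemma D_le {D k : Fin m → ℕ} {d : ℕ} (hk : ∀ i, D i * 4 ^ k i = d) (i : Fin m) : D i ≤ d := by
  calc D i = D i * 1 := (mul_one _).symm
    _ ≤ D i * 4 ^ k i := Nat.mul_le_mul_left _ (Nat.one_le_pow _ _ (by norm_num))
    _ = d := hk i

lemma GB_degree0 (hMM : MM a b CM) (D k : Fin m → ℕ) {d : ℕ}
    (F : NN D → MvPolynomial (Fin 2) (𝓞 K)) (hF : ∀ n j, (F n).degreeOf j ≤ d)
    (r : Fin m → Bool) (n0 : N1 D) (κ : Fin m → ℕ × Bool) :
    (GB a b D k F r n0 κ).degreeOf 0 ≤ d := by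
  classical
  unfold GB
  refine (MvPolynomial.degreeOf_sum_le _ _ _).trans (Finset.sup_le fun n _ => ?_)
  refine (MvPolynomial.degreeOf_mul_le _ _ _).trans ?_
  have h1 : MvPolynomial.degreeOf 0 (∏ i, mm a b (r i) 1 (k i) (D i) (n i) (κ i)) ≤ 0 := by
    refine (MvPolynomial.degreeOf_prod_le _ _ _).trans ?_
    refine (sum_le_sum (g := fun _ => 0) fun i _ => ?_).trans (by simp)
    rw [MvPolynomial.degreeOf_le_iff]
    intro s hs
    have := (hMM (r i) 1 (k i) (D i) (n i) (κ i) (Fin.is_le _)).2.1 s hs 0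
    simpa using this
  have := hF (fun i => ![n0 i, n i]) 0
  omega

lemma GB_degree1 (hMM : MM a b CM) (D k : Fin m → ℕ) {d : ℕ} (hk : ∀ i, D i * 4 ^ k i = d)
    (F : NN D → MvPolynomial (Fin 2) (𝓞 K)) (hF : ∀ n j, (F n).degreeOf j ≤ d)
    (r : Fin m → Bool) (n0 : N1 D) (κ : Fin m → ℕ × Bool) :
    (GB a b D k F r n0 κ).degreeOf 1 ≤ d + 2 * m * d := by
  classical
  unfold GB
  refine (MvPolynomial.degreeOf_sum_le _ _ _).trans (Finset.sup_le fun n _ => ?_)
  refine (MvPolynomial.degreeOf_mul_le _ _ _).trans ?_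
  refine Nat.add_le_add (hF _ 1) ?_
  refine (MvPolynomial.degreeOf_prod_le _ _ _).trans ?_
  calc ∑ i, MvPolynomial.degreeOf 1 (mm a b (r i) 1 (k i) (D i) (n i) (κ i)) ≤ ∑ _i : Fin m, 2 * d := by
        refine sum_le_sum fun i _ => ?_
        rw [MvPolynomial.degreeOf_le_iff]
        intro s hs
        have := (hMM (r i) 1 (k i) (D i) (n i) (κ i) (Fin.is_le _)).2.1 s hs 1
        rw [if_pos rfl, mul_comm (4 ^ k i), hk i] at this
        exact this
    _ = 2 * m * d := by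
        rw [sum_const, card_univ, Fintype.card_fin, smul_eq_mul]
        ring

lemma card_N1 {D k : Fin m → ℕ} {d : ℕ} (hk : ∀ i, D i * 4 ^ k i = d) :
    (Fintype.card (N1 D) : ℝ) ≤ 2 ^ (m * d) := by
  have h1 : Fintype.card (N1 D) ≤ 2 ^ (m * d) := by
    have h3 : Fintype.card (N1 D) = ∏ i, (D i + 1) := by
      simp [N1, Fintype.card_pi]
    rw [h3]
    calc ∏ i, (D i + 1) ≤ ∏ _i : Fin m, 2 ^ d :=
          prod_le_prod' fun i _ => by
            have := D_le hk i
            have := Nat.lt_two_pow_self (n := d)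
            omega
      _ = 2 ^ (m * d) := by
          rw [prod_const, card_univ, Fintype.card_fin, ← pow_mul, mul_comm]
  exact_mod_cast h1

lemma GB_len (hMM : MM a b CM) (hCM : 1 ≤ CM) (D k : Fin m → ℕ) {d : ℕ}
    (hk : ∀ i, D i * 4 ^ k i = d)
    (F : NN D → MvPolynomial (Fin 2) (𝓞 K)) {Λ : ℝ} (hΛ : 0 ≤ Λ) (hF : ∀ n, len (F n) ≤ Λ)
    (r : Fin m → Bool) (n0 : N1 D) (κ : Fin m → ℕ × Bool) :
    len (GB a b D k F r n0 κ) ≤ 2 ^ (m * d) * (Λ * CM ^ (m * d)) := by
  classical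
  have hC0 : 0 ≤ CM := by linarith
  unfold GB
  have h1 : ∀ n : N1 D, len (F (fun i => ![n0 i, n i]) * ∏ i, mm a b (r i) 1 (k i) (D i) (n i) (κ i)) ≤
      Λ * CM ^ (m * d) := by
    intro n
    refine (len_mul _ _).trans (mul_le_mul (hF _) ?_ (len_nonneg _) hΛ)
    refine (len_prod _ _).trans ?_
    calc ∏ i, len (mm a b (r i) 1 (k i) (D i) (n i) (κ i)) ≤ ∏ _i : Fin m, CM ^ d := by
          refine prod_le_prod (fun i _ => len_nonneg _) fun i _ => ?_
          have := (hMM (r i) 1 (k i) (D i) (n i) (κ i) (Fin.is_le _)).2.2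
          rwa [mul_comm (4 ^ k i), hk i] at this
      _ = CM ^ (m * d) := by
          rw [prod_const, card_univ, Fintype.card_fin, ← pow_mul, mul_comm]
  refine (len_sum _ _).trans ((sum_le_sum fun n _ => h1 n).trans ?_)
  rw [sum_const, nsmul_eq_mul]
  exact mul_le_mul_of_nonneg_right (card_N1 hk) (mul_nonneg hΛ (by positivity))

lemma GA_degree1 (hMM : MM a b CM) (D k : Fin m → ℕ) {d : ℕ} (hk : ∀ i, D i * 4 ^ k i = d)
    (F : NN D → MvPolynomial (Fin 2) (𝓞 K)) (hF : ∀ n j, (F n).degreeOf j ≤ d)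
    (r : Fin m → Bool) (α : Fin m → ℕ) (κ : Fin m → ℕ × Bool) :
    (GA a b D k F r α κ).degreeOf 1 ≤ d + 2 * m * d := by
  classical
  unfold GA
  refine (MvPolynomial.degreeOf_sum_le _ _ _).trans (Finset.sup_le fun n0 _ => ?_)
  refine (MvPolynomial.degreeOf_mul_le _ _ _).trans ?_
  have h1 : MvPolynomial.degreeOf 1 (∏ i, ((((n0 i : ℕ).choose (α i) : ℕ) : MvPolynomial (Fin 2) (𝓞 K)) *
      MvPolynomial.X 0 ^ (4 ^ k i * (n0 i : ℕ)))) ≤ 0 := by
    refine (MvPolynomial.degreeOf_prod_le _ _ _).trans ?_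
    refine (sum_le_sum (g := fun _ => 0) fun i _ => ?_).trans (by simp)
    refine (MvPolynomial.degreeOf_mul_le _ _ _).trans ?_
    have e1 : MvPolynomial.degreeOf 1 ((((n0 i : ℕ).choose (α i) : ℕ) : MvPolynomial (Fin 2) (𝓞 K))) = 0 := by
      rw [← map_natCast (MvPolynomial.C : 𝓞 K →+* MvPolynomial (Fin 2) (𝓞 K))]
      exact MvPolynomial.degreeOf_C _ _
    have e2 : MvPolynomial.degreeOf 1 ((MvPolynomial.X 0 : MvPolynomial (Fin 2) (𝓞 K)) ^ (4 ^ k i * (n0 i : ℕ))) ≤ 0 := by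
      refine (MvPolynomial.degreeOf_pow_le _ _ _).trans ?_
      rw [MvPolynomial.degreeOf_X, if_neg (by simp)]
      simp
    omega
  have := GB_degree1 hMM D k hk F hF r n0 κ
  omega

end GBfacts

end Pool.Agent.J4H49.GE
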