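import Pool.Agent.J4H49.GE.Base

/-!
# Project GE (helper27): bounds of a term of the expansion at a place
-/

set_option autoImplicit false
set_option linter.unusedSectionVars false

open Finset NumberField

namespace Pool.Agent.J4H49.GE

open Pool.Agent.J4H27.GC Pool.Agent.J4H27.GE
open Pool.Agent.J4H71.GC (Pt Ht hR_eq prod_Ix sum_Ix NB NB.mul NB.one NB.pow na_h na_P na_H fin_sum fin_int fin_nat inf_le_hs)

variable {K : Type} [Field K] [NumberField K] {m : ℕ}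

/-! ### finite places -/

lemma nb_zero (v : FinitePlace K) (x h : Ix m → K) (u : Option (Fin m)) :
    NB v 1 (v (x (u, 0))) (Xt x h (u, 0)) := by
  intro n
  rw [Xt_zero, one_pow, mul_one, Pool.Agent.J4H71.GC.coeff_lin]
  split_ifs
  · exact le_rfl
  · exact le_rfl
  · rw [map_zero]; exact apply_nonneg v _

lemma fin_z (v : FinitePlace K) (x h : Ix m → K) (u : Option (Fin m)) (p n : ℕ) :
    v (PowerSeries.coeff n (Xt x h (u, 0) ^ p)) ≤ v (x (u, 0)) ^ p := by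
  have := NB.pow zero_le_one (apply_nonneg v _) (nb_zero v x h u) p n
  rwa [one_pow, mul_one] at this

lemma fin_one (v : FinitePlace K) {a b : 𝓞 K} {C₁ : ℝ} {x h : Ix m → K} {E : Ix m → PowerSeries K}
    (hE : Dat a b C₁ x h E) (u : Option (Fin m)) (p q n : ℕ) :
    v (PowerSeries.coeff n (Xt x h (u, 1) ^ p * Ht h E (u, 1) ^ q)) ≤
      max 1 (v (x (u, 1))) ^ (p + 2 * q + 2 * n) := by
  have hM0 : 0 ≤ max 1 (v (x (u, 1))) := zero_le_one.trans (le_max_left _ _)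
  have h2 := NB.mul hM0 (pow_nonneg hM0 _) (pow_nonneg (pow_nonneg hM0 2) _)
    (NB.pow hM0 hM0 (na_P v (hE.2 u).1) p)
    (NB.pow hM0 (pow_nonneg hM0 2) (na_H v (hE.2 u).1 ((hE.2 u).2.2.2.1 v)) q) n
  rw [Xt_one]
  refine h2.trans (le_of_eq ?_)
  rw [← pow_mul, ← pow_add, ← pow_add]

lemma fin_term (v : FinitePlace K) {a b : 𝓞 K} {C₁ : ℝ} {x h : Ix m → K} {E : Ix m → PowerSeries K}
    (hE : Dat a b C₁ x h E) (G : MvPolynomial (Fin 2) (𝓞 K)) {d0 d1 : ℕ} (hG0 : G.degreeOf 0 ≤ d0)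
    (hG1 : G.degreeOf 1 ≤ d1) (p q : ℕ) (gs fs : Fin m → PowerSeries K) (s : Ix m →₀ ℕ)
    (A B : Fin m → ℝ) (hA : ∀ i, v (PowerSeries.coeff (s (some i, 0)) (gs i)) ≤ A i)
    (hB : ∀ i, v (PowerSeries.coeff (s (some i, 1)) (fs i)) ≤ B i) :
    v (MvPowerSeries.coeff s (xF x h (none, 0) ^ p * G.eval₂ (gR K m) (fun j => xF x h (none, j)) *
      (hR h E (none, 1) ^ q * ∏ i, ((gs i).toMvPowerSeries (some i, 0) *
        (fs i).toMvPowerSeries (some i, 1))))) ≤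
      v (x (none, 0)) ^ p * max 1 (v (x (none, 0))) ^ d0 *
        max 1 (v (x (none, 1))) ^ (d1 + 2 * q + 2 * s (none, 1)) * ∏ i, (A i * B i) := by
  have hA0 : ∀ i, 0 ≤ A i := fun i => (apply_nonneg v _).trans (hA i)
  have hB0 : ∀ i, 0 ≤ B i := fun i => (apply_nonneg v _).trans (hB i)
  have hz : 0 ≤ v (x (none, 0)) := apply_nonneg v _
  have hM : 1 ≤ max 1 (v (x (none, 0))) := le_max_left _ _
  have hM' : 1 ≤ max 1 (v (x (none, 1))) := le_max_left _ _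
  have hP : 0 ≤ ∏ i, (A i * B i) := prod_nonneg fun i _ => mul_nonneg (hA0 i) (hB0 i)
  rw [expand]
  refine fin_sum v _ _ (by positivity) fun c hc => ?_
  rw [MvPolynomial.degreeOf_le_iff] at hG0 hG1
  rw [map_mul, map_mul, map_mul, map_prod]
  have h1 : v (PowerSeries.coeff (s (none, 0)) (Xt x h (none, 0) ^ (p + c 0))) ≤
      v (x (none, 0)) ^ p * max 1 (v (x (none, 0))) ^ d0 := by
    refine (fin_z v x h none _ _).trans ?_
    rw [pow_add]
    refine mul_le_mul_of_nonneg_left ?_ (by positivity)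
    exact (pow_le_pow_left₀ hz (le_max_right _ _) _).trans (pow_le_pow_right₀ hM (hG0 c hc))
  have h2 : v (PowerSeries.coeff (s (none, 1)) (Xt x h (none, 1) ^ c 1 * Ht h E (none, 1) ^ q)) ≤
      max 1 (v (x (none, 1))) ^ (d1 + 2 * q + 2 * s (none, 1)) := by
    refine (fin_one v hE none _ _ _).trans (pow_le_pow_right₀ hM' ?_)
    have := hG1 c hc
    omega
  have h3 : ∏ i, v (PowerSeries.coeff (s (some i, 0)) (gs i) * PowerSeries.coeff (s (some i, 1)) (fs i)) ≤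
      ∏ i, (A i * B i) := by
    refine prod_le_prod (fun i _ => apply_nonneg v _) fun i _ => ?_
    rw [map_mul]
    exact mul_le_mul (hA i) (hB i) (apply_nonneg v _) (hA0 i)
  calc v ((G.coeff c : 𝓞 K) : K) *
      (v (PowerSeries.coeff (s (none, 0)) (Xt x h (none, 0) ^ (p + c 0))) *
        v (PowerSeries.coeff (s (none, 1)) (Xt x h (none, 1) ^ c 1 * Ht h E (none, 1) ^ q)) *
        ∏ i, v (PowerSeries.coeff (s (some i, 0)) (gs i) * PowerSeries.coeff (s (some i, 1)) (fs i))) ≤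
      1 * (v (x (none, 0)) ^ p * max 1 (v (x (none, 0))) ^ d0 *
        max 1 (v (x (none, 1))) ^ (d1 + 2 * q + 2 * s (none, 1)) * ∏ i, (A i * B i)) := by
        refine mul_le_mul (fin_int v _) (mul_le_mul (mul_le_mul h1 h2 (apply_nonneg v _) (by positivity)) h3
          (prod_nonneg fun i _ => apply_nonneg v _) (by positivity)) ?_ zero_le_one
        exact mul_nonneg (mul_nonneg (apply_nonneg v _) (apply_nonneg v _)) (prod_nonneg fun i _ => apply_nonneg v _)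
    _ = _ := one_mul _

/-! ### arbitrary places -/

/-- the absolute values in question -/
def Plc (v : AbsoluteValue K ℝ) : Prop := ∀ y : 𝓞 K, v (y : K) ≤ hs y

lemma plc_inf (w : InfinitePlace K) : Plc w.1 := fun y => inf_le_hs w y

lemma plc_fin (w : FinitePlace K) : Plc w.1 := by
  intro y
  by_cases hy : y = 0
  · rw [hy]
    have e : ((0 : 𝓞 K) : K) = 0 := map_zero _
    calc w.1 ((0 : 𝓞 K) : K) = w.1 0 := congrArg _ e
      _ = 0 := AbsoluteValue.map_zero _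
      _ ≤ _ := hs_nonneg _
  · refine (fin_int w y).trans ?_
    exact one_le_house_of_isIntegral (RingOfIntegers.isIntegral_coe y) (by simpa using hy)

/-- weighted length -/
def WB (v : AbsoluteValue K ℝ) (ρ A : ℝ) (f : PowerSeries K) : Prop :=
  ∀ N, ∑ n ∈ range N, v (PowerSeries.coeff n f) * ρ ^ n ≤ A

variable {v : AbsoluteValue K ℝ} {ρ A A' : ℝ} {f g : PowerSeries K}

lemma v_sum {ι : Type*} (s : Finset ι) (f : ι → K) : v (∑ i ∈ s, f i) ≤ ∑ i ∈ s, v (f i) := by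
  classical
  induction s using Finset.induction_on with
  | empty => simp
  | insert a s ha ih =>
    rw [sum_insert ha, sum_insert ha]
    exact (v.add_le _ _).trans (by linarith)

lemma WB.nonneg (hf : WB v ρ A f) : 0 ≤ A := by
  have := hf 0
  simpa using this

lemma WB.mono (hf : WB v ρ A f) (h : A ≤ A') : WB v ρ A' f := fun N => (hf N).trans h

lemma WB.mul (hρ : 0 ≤ ρ) (hf : WB v ρ A f) (hg : WB v ρ A' g) : WB v ρ (A * A') (f * g) := by
  intro N
  have hA := hf.nonneg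
  have wnn : ∀ x : K, 0 ≤ v x := fun x => apply_nonneg v x
  calc ∑ n ∈ range N, v (PowerSeries.coeff n (f * g)) * ρ ^ n ≤
      ∑ n ∈ range N, ∑ k ∈ range (n + 1), (v (PowerSeries.coeff k f) * ρ ^ k) *
        (v (PowerSeries.coeff (n - k) g) * ρ ^ (n - k)) := by
        refine sum_le_sum fun n _ => ?_
        rw [PowerSeries.coeff_mul, Finset.Nat.sum_antidiagonal_eq_sum_range_succ
          (fun i j => PowerSeries.coeff i f * PowerSeries.coeff j g) n]
        refine (mul_le_mul_of_nonneg_right (v_sum _ _) (by positivity)).trans (le_of_eq ?_)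
        rw [sum_mul]
        refine sum_congr rfl fun k hk => ?_
        rw [mem_range] at hk
        have e : ρ ^ n = ρ ^ k * ρ ^ (n - k) := by
          rw [← pow_add]
          congr 1
          omega
        rw [map_mul, e]
        ring
    _ = ∑ k ∈ range N, ∑ l ∈ range (N - k), (v (PowerSeries.coeff k f) * ρ ^ k) *
        (v (PowerSeries.coeff l g) * ρ ^ l) :=
        Finset.sum_range_diag_flip N (fun k l => (v (PowerSeries.coeff k f) * ρ ^ k) *
          (v (PowerSeries.coeff l g) * ρ ^ l))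
    _ ≤ ∑ k ∈ range N, (v (PowerSeries.coeff k f) * ρ ^ k) * A' := by
        refine sum_le_sum fun k _ => ?_
        rw [← mul_sum]
        exact mul_le_mul_of_nonneg_left (hg _) (mul_nonneg (wnn _) (by positivity))
    _ = (∑ k ∈ range N, (v (PowerSeries.coeff k f) * ρ ^ k)) * A' := by rw [sum_mul]
    _ ≤ A * A' := mul_le_mul_of_nonneg_right (hf N) hg.nonneg

lemma WB.one : WB v ρ 1 1 := by
  intro N
  rcases N with _ | N
  · simp
  · rw [Finset.sum_range_succ']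
    simp [PowerSeries.coeff_one]

lemma WB.pow (hρ : 0 ≤ ρ) (hf : WB v ρ A f) (n : ℕ) : WB v ρ (A ^ n) (f ^ n) := by
  induction n with
  | zero =>
    rw [pow_zero, pow_zero]
    exact WB.one
  | succ n ih =>
    rw [pow_succ, pow_succ]
    exact WB.mul hρ ih hf

lemma WB.coeff (hρ : 0 < ρ) (hf : WB v ρ A f) (n : ℕ) : v (PowerSeries.coeff n f) ≤ A * (ρ⁻¹) ^ n := by
  have h1 := hf (n + 1)
  have h2 : v (PowerSeries.coeff n f) * ρ ^ n ≤
      ∑ n ∈ range (n + 1), v (PowerSeries.coeff n f) * ρ ^ n :=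
    single_le_sum (f := fun n => v (PowerSeries.coeff n f) * ρ ^ n)
      (fun i _ => mul_nonneg (apply_nonneg v _) (by positivity)) (self_mem_range_succ n)
  rw [inv_pow, ← div_eq_mul_inv, le_div_iff₀ (by positivity)]
  exact h2.trans h1

lemma WB.lin (hρ : 0 ≤ ρ) (x c : K) : WB v ρ (v x + v c * ρ) (PowerSeries.C x + PowerSeries.C c * PowerSeries.X) := by
  have h5 : 0 ≤ v c * ρ := mul_nonneg (apply_nonneg v _) hρ
  have h6 : 0 ≤ v x := apply_nonneg v _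
  intro N
  rcases N with _ | _ | N
  · simp
    positivity
  · rw [zero_add, Finset.sum_range_one, Pool.Agent.J4H71.GC.coeff_lin, if_pos rfl, pow_zero, mul_one]
    linarith
  · rw [Finset.sum_range_succ', Finset.sum_range_succ']
    have h0 : ∑ k ∈ range N, v (PowerSeries.coeff (k + 1 + 1)
        (PowerSeries.C x + PowerSeries.C c * PowerSeries.X)) * ρ ^ (k + 1 + 1) = 0 := by
      refine sum_eq_zero fun k _ => ?_
      rw [Pool.Agent.J4H71.GC.coeff_lin, if_neg (by omega), if_neg (by omega), map_zero, zero_mul]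
    rw [h0, Pool.Agent.J4H71.GC.coeff_lin, Pool.Agent.J4H71.GC.coeff_lin, if_neg (by omega), if_pos (by omega),
      if_pos rfl]
    simp only [zero_add, pow_one, pow_zero, mul_one]
    linarith

/-- the coordinates of the first kind -/
lemma arch_z (x h : Ix m → K) (u : Option (Fin m)) (p n : ℕ) :
    v (PowerSeries.coeff n (Xt x h (u, 0) ^ p)) ≤ 2 ^ p * v (x (u, 0)) ^ p := by
  have h1 : WB v 1 (2 * v (x (u, 0))) (Xt x h (u, 0)) := by
    rw [Xt_zero]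
    exact (WB.lin zero_le_one _ _).mono (by linarith)
  have h2 := (h1.pow zero_le_one p).coeff zero_lt_one n
  rw [inv_one, one_pow, mul_one, mul_pow] at h2
  exact h2

section one

variable {a b : 𝓞 K} {A₀ C₂ : ℝ}

lemma a_h {x h : K} (hA : v (a : K) + v (b : K) ≤ A₀) (hc : h ^ 2 = x ^ 3 + (a : K) * x + (b : K)) :
    v h ^ 2 ≤ (1 + A₀) * (max 1 (v x)) ^ 3 := by
  have hM1 : 1 ≤ max 1 (v x) := le_max_left _ _
  have hxM : v x ≤ max 1 (v x) := le_max_right _ _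
  set M := max 1 (v x) with hM
  have ha : 0 ≤ v (a : K) := apply_nonneg v _
  have hb : 0 ≤ v (b : K) := apply_nonneg v _
  have hx : 0 ≤ v x := apply_nonneg v _
  rw [← map_pow, hc]
  have h1 : v (x ^ 3 + (a : K) * x + (b : K)) ≤ v x ^ 3 + v (a : K) * v x + v (b : K) := by
    have e1 := v.add_le (x ^ 3 + (a : K) * x) (b : K)
    have e2 := v.add_le (x ^ 3) ((a : K) * x)
    rw [map_pow, map_mul] at e2
    linarith
  have h2 : v x ^ 3 ≤ M ^ 3 := pow_le_pow_left₀ hx hxM 3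
  have h3 : M ≤ M ^ 3 := by
    calc M = M ^ 1 := by ring
      _ ≤ M ^ 3 := pow_le_pow_right₀ hM1 (by norm_num)
  have h4 : 1 ≤ M ^ 3 := one_le_pow₀ hM1
  have h5 : v (a : K) * v x ≤ v (a : K) * M ^ 3 := mul_le_mul_of_nonneg_left (hxM.trans h3) ha
  have h6 : v (b : K) ≤ v (b : K) * M ^ 3 := le_mul_of_one_le_right hb h4
  have h7 : (v (a : K) + v (b : K)) * M ^ 3 ≤ A₀ * M ^ 3 :=
    mul_le_mul_of_nonneg_right hA (by positivity)
  nlinarith

lemma a_P (hv : Plc v) {x h : K} (hC₂ : 1 ≤ C₂)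
    (hA : v (a : K) + v (b : K) ≤ A₀) (hc : h ^ 2 = x ^ 3 + (a : K) * x + (b : K)) :
    WB v ((C₂ * (max 1 (v x)) ^ 2)⁻¹) (5 * (1 + A₀) * max 1 (v x))
      (PowerSeries.C x + PowerSeries.C (4 * h ^ 2) * PowerSeries.X) := by
  have hM1 : 1 ≤ max 1 (v x) := le_max_left _ _
  have hxM : v x ≤ max 1 (v x) := le_max_right _ _
  have hh := a_h hA hc
  set M := max 1 (v x) with hM
  have hA0 : 0 ≤ A₀ := (add_nonneg (apply_nonneg v _) (apply_nonneg v _)).trans hA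
  have hw4 : v (4 : K) ≤ 4 := by
    have h0 := hv ((4 : ℕ) : 𝓞 K)
    have e : (((4 : ℕ) : 𝓞 K) : K) = 4 := by
      have e1 : algebraMap (𝓞 K) K ((4 : ℕ) : 𝓞 K) = ((4 : ℕ) : K) := map_natCast _ 4
      refine e1.trans ?_
      norm_num
    rw [hs_nat, e] at h0
    exact_mod_cast h0
  set ρ := (C₂ * M ^ 2)⁻¹ with hρ
  have hρ0 : 0 ≤ ρ := by positivity
  have h4 : v (4 * h ^ 2) * ρ ≤ 4 * (1 + A₀) * M := by
    rw [map_mul, map_pow, hρ, ← div_eq_mul_inv, div_le_iff₀ (by positivity)]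
    have h5 : M ^ 3 ≤ M * (C₂ * M ^ 2) := by
      have : M ^ 3 = M * (1 * M ^ 2) := by ring
      rw [this]
      gcongr
    calc v 4 * v h ^ 2 ≤ 4 * ((1 + A₀) * M ^ 3) := mul_le_mul hw4 hh (by positivity) (by norm_num)
      _ = 4 * (1 + A₀) * M ^ 3 := by ring
      _ ≤ 4 * (1 + A₀) * (M * (C₂ * M ^ 2)) := by
          apply mul_le_mul_of_nonneg_left h5 (by positivity)
      _ = _ := by ring
  refine (WB.lin hρ0 _ _).mono ?_
  have h6 : M ≤ (1 + A₀) * M := by nlinarith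
  nlinarith

lemma a_H {x h : K} {E : PowerSeries K}
    (hA : v (a : K) + v (b : K) ≤ A₀) (hc : h ^ 2 = x ^ 3 + (a : K) * x + (b : K))
    (hE : ∀ N : ℕ, ∑ n ∈ range N, v (PowerSeries.coeff n E) * ((C₂ * (max 1 (v x)) ^ 2)⁻¹) ^ n ≤ 2) :
    WB v ((C₂ * (max 1 (v x)) ^ 2)⁻¹) (5 * (1 + A₀) * max 1 (v x) ^ 2) (PowerSeries.C h * E) := by
  have hM1 : 1 ≤ max 1 (v x) := le_max_left _ _
  have hh := a_h hA hc
  set M := max 1 (v x) with hM
  have hA0 : 0 ≤ A₀ := (add_nonneg (apply_nonneg v _) (apply_nonneg v _)).trans hA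
  have hh2 : v h ≤ (1 + A₀) * M ^ 2 := by
    have h2 : (1 + A₀) * M ^ 3 ≤ ((1 + A₀) * M ^ 2) ^ 2 := by
      have h3 : M ^ 3 ≤ M ^ 4 := pow_le_pow_right₀ hM1 (by norm_num)
      calc (1 + A₀) * M ^ 3 ≤ (1 + A₀) * M ^ 4 := by gcongr
        _ ≤ ((1 + A₀) * (1 + A₀)) * M ^ 4 := by
            have : 1 + A₀ ≤ (1 + A₀) * (1 + A₀) := by nlinarith
            gcongr
        _ = _ := by ring
    exact (sq_le_sq₀ (apply_nonneg v _) (by positivity)).1 (hh.trans h2)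
  intro N
  have h1 : ∀ n, v (PowerSeries.coeff n (PowerSeries.C h * E)) * ((C₂ * M ^ 2)⁻¹) ^ n =
      v h * (v (PowerSeries.coeff n E) * ((C₂ * M ^ 2)⁻¹) ^ n) := by
    intro n
    rw [PowerSeries.coeff_C_mul, map_mul]
    ring
  rw [sum_congr rfl fun n _ => h1 n, ← mul_sum]
  calc v h * ∑ n ∈ range N, v (PowerSeries.coeff n E) * ((C₂ * M ^ 2)⁻¹) ^ n ≤ v h * 2 :=
        mul_le_mul_of_nonneg_left (hE N) (apply_nonneg v _)
    _ ≤ ((1 + A₀) * M ^ 2) * 2 := by linarith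
    _ ≤ 5 * (1 + A₀) * M ^ 2 := by
        have : 0 ≤ (1 + A₀) * M ^ 2 := by positivity
        linarith

end one

/-- the data at a place: `C₂` for the series -/
def DatV (v : AbsoluteValue K ℝ) (a b : 𝓞 K) (A₀ C₂ : ℝ) (x h : Ix m → K) (E : Ix m → PowerSeries K) : Prop :=
  1 ≤ C₂ ∧ v (a : K) + v (b : K) ≤ A₀ ∧ Plc v ∧ ∀ u : Option (Fin m),
    h (u, 1) ^ 2 = x (u, 1) ^ 3 + (a : K) * x (u, 1) + (b : K) ∧
    ∀ N : ℕ, ∑ n ∈ range N, v (PowerSeries.coeff n (E (u, 1))) * ((C₂ * (max 1 (v (x (u, 1)))) ^ 2)⁻¹) ^ n ≤ 2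

lemma DatV.P {a b : 𝓞 K} {A₀ C₂ : ℝ} {x h : Ix m → K} {E : Ix m → PowerSeries K} (hD : DatV v a b A₀ C₂ x h E)
    (u : Option (Fin m)) : WB v ((C₂ * (max 1 (v (x (u, 1)))) ^ 2)⁻¹) (5 * (1 + A₀) * max 1 (v (x (u, 1))))
      (Xt x h (u, 1)) := by
  rw [Xt_one]
  exact a_P hD.2.2.1 hD.1 hD.2.1 (hD.2.2.2 u).1

lemma DatV.H {a b : 𝓞 K} {A₀ C₂ : ℝ} {x h : Ix m → K} {E : Ix m → PowerSeries K} (hD : DatV v a b A₀ C₂ x h E)
    (u : Option (Fin m)) : WB v ((C₂ * (max 1 (v (x (u, 1)))) ^ 2)⁻¹) (5 * (1 + A₀) * max 1 (v (x (u, 1))) ^ 2)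
      (Ht h E (u, 1)) :=
  a_H hD.2.1 (hD.2.2.2 u).1 (hD.2.2.2 u).2

lemma DatV.rho {a b : 𝓞 K} {A₀ C₂ : ℝ} {x h : Ix m → K} {E : Ix m → PowerSeries K} (hD : DatV v a b A₀ C₂ x h E)
    (u : Option (Fin m)) : 0 < (C₂ * (max 1 (v (x (u, 1)))) ^ 2)⁻¹ := by
  have h1 := hD.1
  have h2 : (1 : ℝ) ≤ max 1 (v (x (u, 1))) := le_max_left _ _
  positivity

lemma arch_one {a b : 𝓞 K} {A₀ C₂ : ℝ} {x h : Ix m → K} {E : Ix m → PowerSeries K} (hD : DatV v a b A₀ C₂ x h E)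
    (u : Option (Fin m)) (p q n : ℕ) :
    v (PowerSeries.coeff n (Xt x h (u, 1) ^ p * Ht h E (u, 1) ^ q)) ≤
      (5 * (1 + A₀)) ^ (p + q) * C₂ ^ n * max 1 (v (x (u, 1))) ^ (p + 2 * q + 2 * n) := by
  have hρ := hD.rho u
  have h2 := (((hD.P u).pow hρ.le p).mul hρ.le ((hD.H u).pow hρ.le q)).coeff hρ n
  refine h2.trans (le_of_eq ?_)
  rw [inv_inv, mul_pow (5 * (1 + A₀)) (max 1 (v (x (u, 1)))), mul_pow (5 * (1 + A₀)) (max 1 (v (x (u, 1))) ^ 2),
    mul_pow C₂, ← pow_mul, ← pow_mul, pow_add, pow_add, pow_add]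
  ring

lemma A0_nonneg {a b : 𝓞 K} {A₀ C₂ : ℝ} {x h : Ix m → K} {E : Ix m → PowerSeries K} (hD : DatV v a b A₀ C₂ x h E) :
    0 ≤ A₀ := (add_nonneg (apply_nonneg v _) (apply_nonneg v _)).trans hD.2.1

lemma arch_term {a b : 𝓞 K} {A₀ C₂ : ℝ} {x h : Ix m → K} {E : Ix m → PowerSeries K}
    (hD : DatV v a b A₀ C₂ x h E) (G : MvPolynomial (Fin 2) (𝓞 K)) {d0 d1 : ℕ} (hG0 : G.degreeOf 0 ≤ d0)
    (hG1 : G.degreeOf 1 ≤ d1) (p q : ℕ) (gs fs : Fin m → PowerSeries K) (s : Ix m →₀ ℕ)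
    (A B : Fin m → ℝ) (hA : ∀ i, v (PowerSeries.coeff (s (some i, 0)) (gs i)) ≤ A i)
    (hB : ∀ i, v (PowerSeries.coeff (s (some i, 1)) (fs i)) ≤ B i) :
    v (MvPowerSeries.coeff s (xF x h (none, 0) ^ p * G.eval₂ (gR K m) (fun j => xF x h (none, j)) *
      (hR h E (none, 1) ^ q * ∏ i, ((gs i).toMvPowerSeries (some i, 0) *
        (fs i).toMvPowerSeries (some i, 1))))) ≤
      len G * ((2 ^ (p + d0) * (v (x (none, 0)) ^ p * max 1 (v (x (none, 0))) ^ d0)) *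
        ((5 * (1 + A₀)) ^ (d1 + q) * C₂ ^ s (none, 1) *
          max 1 (v (x (none, 1))) ^ (d1 + 2 * q + 2 * s (none, 1))) * ∏ i, (A i * B i)) := by
  have hA0 : ∀ i, 0 ≤ A i := fun i => (apply_nonneg v _).trans (hA i)
  have hB0 : ∀ i, 0 ≤ B i := fun i => (apply_nonneg v _).trans (hB i)
  have hA00 := A0_nonneg hD
  have hC₂ : 0 < C₂ := lt_of_lt_of_le one_pos hD.1
  have hz : 0 ≤ v (x (none, 0)) := apply_nonneg v _
  have hM : 1 ≤ max 1 (v (x (none, 0))) := le_max_left _ _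
  have hM' : 1 ≤ max 1 (v (x (none, 1))) := le_max_left _ _
  have hP : 0 ≤ ∏ i, (A i * B i) := prod_nonneg fun i _ => mul_nonneg (hA0 i) (hB0 i)
  have hC₃ : 1 ≤ 5 * (1 + A₀) := by linarith
  rw [expand]
  rw [MvPolynomial.degreeOf_le_iff] at hG0 hG1
  refine (v_sum _ _).trans ?_
  unfold len
  rw [sum_mul]
  refine sum_le_sum fun c hc => ?_
  rw [map_mul, map_mul, map_mul, map_prod]
  have h1 : v (PowerSeries.coeff (s (none, 0)) (Xt x h (none, 0) ^ (p + c 0))) ≤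
      2 ^ (p + d0) * (v (x (none, 0)) ^ p * max 1 (v (x (none, 0))) ^ d0) := by
    refine (arch_z x h none _ _).trans ?_
    refine mul_le_mul (pow_le_pow_right₀ (by norm_num) (by have := hG0 c hc; omega)) ?_ (by positivity)
      (by positivity)
    rw [pow_add]
    refine mul_le_mul_of_nonneg_left ?_ (by positivity)
    exact (pow_le_pow_left₀ hz (le_max_right _ _) _).trans (pow_le_pow_right₀ hM (hG0 c hc))
  have h2 : v (PowerSeries.coeff (s (none, 1)) (Xt x h (none, 1) ^ c 1 * Ht h E (none, 1) ^ q)) ≤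
      (5 * (1 + A₀)) ^ (d1 + q) * C₂ ^ s (none, 1) *
        max 1 (v (x (none, 1))) ^ (d1 + 2 * q + 2 * s (none, 1)) := by
    have hc1 := hG1 c hc
    refine (arch_one hD none _ _ _).trans ?_
    refine mul_le_mul (mul_le_mul_of_nonneg_right (pow_le_pow_right₀ hC₃ (by omega)) (by positivity))
      (pow_le_pow_right₀ hM' (by omega)) (by positivity) (by positivity)
  have h3 : ∏ i, v (PowerSeries.coeff (s (some i, 0)) (gs i) * PowerSeries.coeff (s (some i, 1)) (fs i)) ≤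
      ∏ i, (A i * B i) := by
    refine prod_le_prod (fun i _ => apply_nonneg v _) fun i _ => ?_
    rw [map_mul]
    exact mul_le_mul (hA i) (hB i) (apply_nonneg v _) (hA0 i)
  refine mul_le_mul (hD.2.2.1 _) (mul_le_mul (mul_le_mul h1 h2 (apply_nonneg v _) (by positivity)) h3
    (prod_nonneg fun i _ => apply_nonneg v _) (by positivity)) ?_ (hs_nonneg _)
  exact mul_nonneg (mul_nonneg (apply_nonneg v _) (apply_nonneg v _)) (prod_nonneg fun i _ => apply_nonneg v _)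

/-- the data at the places -/
lemma datV_inf (w : InfinitePlace K) {a b : 𝓞 K} {A₀ C₁ : ℝ} (hC₁ : 1 ≤ C₁) (hA : w.1 (a : K) + w.1 (b : K) ≤ A₀)
    {x h : Ix m → K} {E : Ix m → PowerSeries K} (hE : Dat a b C₁ x h E) : DatV w.1 a b A₀ (2 * C₁) x h E := by
  refine ⟨by linarith, hA, plc_inf w, fun u => ⟨(hE.2 u).1, fun N => ?_⟩⟩
  refine le_trans (sum_le_sum fun n _ => ?_) ((hE.2 u).2.2.2.2 w N)
  refine mul_le_mul_of_nonneg_left ?_ (apply_nonneg w.1 _)
  have h1 : (1 : ℝ) ≤ max 1 (w.1 (x (u, 1))) := le_max_left _ _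
  refine pow_le_pow_left₀ (by positivity) ?_ n
  refine inv_anti₀ (by positivity) ?_
  show C₁ * max 1 (w.1 (x (u, 1))) ^ 2 ≤ 2 * C₁ * max 1 (w.1 (x (u, 1))) ^ 2
  have : 0 ≤ C₁ * max 1 (w.1 (x (u, 1))) ^ 2 := by positivity
  linarith

lemma datV_fin (w : FinitePlace K) {a b : 𝓞 K} {A₀ C₁ : ℝ} (hC₁ : 1 ≤ C₁) (hA : w.1 (a : K) + w.1 (b : K) ≤ A₀)
    {x h : Ix m → K} {E : Ix m → PowerSeries K} (hE : Dat a b C₁ x h E) : DatV w.1 a b A₀ (2 * C₁) x h E := by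
  refine ⟨by linarith, hA, plc_fin w, fun u => ⟨(hE.2 u).1, fun N => ?_⟩⟩
  have h1 : (1 : ℝ) ≤ max 1 (w.1 (x (u, 1))) := le_max_left _ _
  have h2 : ∀ n ∈ range N, w.1 (PowerSeries.coeff n (E (u, 1))) * ((2 * C₁ * max 1 (w.1 (x (u, 1))) ^ 2)⁻¹) ^ n ≤
      (1 / 2) ^ n := by
    intro n _
    have h3 : w.1 (PowerSeries.coeff n (E (u, 1))) ≤ max 1 (w.1 (x (u, 1))) ^ (2 * n) := (hE.2 u).2.2.2.1 w n
    rw [inv_pow, ← div_eq_mul_inv, div_le_iff₀ (by positivity), mul_pow, mul_pow, ← pow_mul]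
    calc w.1 (PowerSeries.coeff n (E (u, 1))) ≤ 1 * 1 * max 1 (w.1 (x (u, 1))) ^ (2 * n) := by linarith
      _ ≤ ((1 / 2) ^ n * 2 ^ n) * C₁ ^ n * max 1 (w.1 (x (u, 1))) ^ (2 * n) := by
          refine mul_le_mul_of_nonneg_right ?_ (by positivity)
          have e1 : ((1 : ℝ) / 2) ^ n * 2 ^ n = 1 := by rw [← mul_pow]; norm_num
          rw [e1]
          exact mul_le_mul_of_nonneg_left (one_le_pow₀ hC₁) zero_le_one
      _ = _ := by ring
  refine (sum_le_sum h2).trans ?_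
  exact sum_geometric_two_le N

end Pool.Agent.J4H49.GE
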