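import Pool.Agent.J4H49.GE.Lct

/-!
# Project GE (helper27): job (LCB), first part: integers at a place, powers of a series with a small constant term
-/

set_option autoImplicit false
set_option linter.unusedSectionVars false

open Finset NumberField

namespace Pool.Agent.J4H49.GE

open Pool.Agent.J4H27.GC Pool.Agent.J4H27.GE
open Pool.Agent.J4H71.GC (fin_int inf_le_hs)

variable {K : Type} [Field K] [NumberField K]

/-! ### lower bounds for integers -/

lemma one_le_hs {y : 𝓞 K} (hy : y ≠ 0) : 1 ≤ hs y :=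
  one_le_house_of_isIntegral (RingOfIntegers.isIntegral_coe y) (by simpa using hy)

lemma prod_inf_le (y : 𝓞 K) : ∏ w : InfinitePlace K, w (y : K) ^ w.mult ≤ hs y ^ Module.finrank ℚ K := by
  calc ∏ w : InfinitePlace K, w (y : K) ^ w.mult ≤ ∏ w : InfinitePlace K, hs y ^ w.mult :=
        prod_le_prod (fun w _ => pow_nonneg (apply_nonneg w _) _) fun w _ =>
          pow_le_pow_left₀ (apply_nonneg w _) (inf_le_hs w y) _
    _ = _ := by rw [prod_pow_eq_pow_sum, InfinitePlace.sum_mult_eq]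

lemma finprod_le (v : FinitePlace K) {y : 𝓞 K} (hy : y ≠ 0) : ∏ᶠ w : FinitePlace K, w (y : K) ≤ v (y : K) := by
  classical
  have hfin : (Function.mulSupport fun w : FinitePlace K => w (y : K)).Finite :=
    FinitePlace.hasFiniteMulSupport (by simpa using hy)
  rw [finprod_eq_prod_of_mulSupport_subset (s := insert v hfin.toFinset) _ (by
    intro w hw
    simp only [coe_insert, Set.Finite.coe_toFinset, Set.mem_insert_iff]
    exact Or.inr hw)]
  rw [← mul_prod_erase _ _ (mem_insert_self v hfin.toFinset)]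
  have h1 : ∏ w ∈ (insert v hfin.toFinset).erase v, w (y : K) ≤ 1 :=
    prod_le_one (fun w _ => apply_nonneg w _) fun w _ => fin_int w y
  calc v (y : K) * ∏ w ∈ (insert v hfin.toFinset).erase v, w (y : K) ≤ v (y : K) * 1 :=
        mul_le_mul_of_nonneg_left h1 (apply_nonneg v _)
    _ = _ := mul_one _

lemma finprod_le_one (y : 𝓞 K) : ∏ᶠ w : FinitePlace K, w (y : K) ≤ 1 := by
  classical
  by_cases hfin : (Function.mulSupport fun w : FinitePlace K => w (y : K)).Finite
  · rw [finprod_eq_prod_of_mulSupport_subset (s := hfin.toFinset) _ (by simp)]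
    exact prod_le_one (fun w _ => apply_nonneg w _) fun w _ => fin_int w y
  · rw [finprod_of_infinite_mulSupport hfin]

lemma low_fin (v : FinitePlace K) {y : 𝓞 K} (hy : y ≠ 0) : 1 ≤ v (y : K) * hs y ^ Module.finrank ℚ K := by
  have hy' : (y : K) ≠ 0 := by simpa using hy
  have h1 := prod_abs_eq_one hy'
  have h2 := finprod_le v hy
  have h3 := prod_inf_le y
  have h4 : 0 ≤ ∏ w : InfinitePlace K, w (y : K) ^ w.mult := prod_nonneg fun w _ => pow_nonneg (apply_nonneg w _) _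
  have h5 : 0 ≤ v (y : K) := apply_nonneg v _
  calc (1 : ℝ) = (∏ w : InfinitePlace K, w (y : K) ^ w.mult) * ∏ᶠ w : FinitePlace K, w (y : K) := h1.symm
    _ ≤ (∏ w : InfinitePlace K, w (y : K) ^ w.mult) * v (y : K) := mul_le_mul_of_nonneg_left h2 h4
    _ ≤ hs y ^ Module.finrank ℚ K * v (y : K) := mul_le_mul_of_nonneg_right h3 h5
    _ = _ := mul_comm _ _

lemma low_inf (v : InfinitePlace K) {y : 𝓞 K} (hy : y ≠ 0) : 1 ≤ v (y : K) * hs y ^ Module.finrank ℚ K := by
  classical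
  have hy' : (y : K) ≠ 0 := by simpa using hy
  have h1 := prod_abs_eq_one hy'
  have h2 := finprod_le_one y
  have h4 : 0 ≤ ∏ w : InfinitePlace K, w (y : K) ^ w.mult := prod_nonneg fun w _ => pow_nonneg (apply_nonneg w _) _
  have h5 : 0 ≤ v (y : K) := apply_nonneg v _
  have h6 : (1 : ℝ) ≤ ∏ w : InfinitePlace K, w (y : K) ^ w.mult := by
    calc (1 : ℝ) = (∏ w : InfinitePlace K, w (y : K) ^ w.mult) * ∏ᶠ w : FinitePlace K, w (y : K) := h1.symm
      _ ≤ (∏ w : InfinitePlace K, w (y : K) ^ w.mult) * 1 := mul_le_mul_of_nonneg_left h2 h4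
      _ = _ := mul_one _
  rw [← mul_prod_erase _ _ (mem_univ v)] at h6
  have hH := one_le_hs hy
  have h7 : ∏ w ∈ univ.erase v, w (y : K) ^ w.mult ≤ ∏ w ∈ univ.erase v, hs y ^ InfinitePlace.mult w :=
    prod_le_prod (fun w _ => pow_nonneg (apply_nonneg w _) _) fun w _ =>
      pow_le_pow_left₀ (apply_nonneg w _) (inf_le_hs w y) _
  have h8 : v (y : K) ^ v.mult ≤ v (y : K) * hs y ^ v.mult := by
    have hm : 0 < v.mult := InfinitePlace.mult_pos
    obtain ⟨n, hn⟩ : ∃ n, v.mult = n + 1 := ⟨v.mult - 1, by omega⟩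
    rw [hn, pow_succ']
    refine mul_le_mul_of_nonneg_left ?_ h5
    calc v (y : K) ^ n ≤ hs y ^ n := pow_le_pow_left₀ h5 (inf_le_hs v y) _
      _ ≤ hs y ^ (n + 1) := pow_le_pow_right₀ hH (by omega)
  calc (1 : ℝ) ≤ v (y : K) ^ v.mult * ∏ w ∈ univ.erase v, w (y : K) ^ w.mult := h6
    _ ≤ (v (y : K) * hs y ^ v.mult) * ∏ w ∈ univ.erase v, hs y ^ InfinitePlace.mult w := by
        refine mul_le_mul h8 h7 (prod_nonneg fun w _ => pow_nonneg (apply_nonneg w _) _) ?_
        exact mul_nonneg h5 (pow_nonneg (hs_nonneg _) _)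
    _ = v (y : K) * (hs y ^ v.mult * ∏ w ∈ univ.erase v, hs y ^ InfinitePlace.mult w) := by ring
    _ = v (y : K) * hs y ^ Module.finrank ℚ K := by
        rw [mul_prod_erase univ (fun w => hs y ^ InfinitePlace.mult w) (mem_univ v), prod_pow_eq_pow_sum,
          InfinitePlace.sum_mult_eq]

/-- all the properties of a place -/
lemma place (v : FinitePlace K ⊕ InfinitePlace K) (a b : 𝓞 K) : ∃ w : AbsoluteValue K ℝ, (∀ x, pv v x = w x) ∧
    (∀ y : 𝓞 K, y ≠ 0 → 1 ≤ w (y : K) * hs y ^ Module.finrank ℚ K) ∧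
    ∀ (m : ℕ) (C₁ : ℝ) (x h : Ix m → K) (E : Ix m → PowerSeries K), 1 ≤ C₁ → Dat a b C₁ x h E →
      DatV w a b (hs a + hs b) (2 * C₁) x h E := by
  rcases v with v | v
  · refine ⟨v.1, fun _ => rfl, fun y hy => low_fin v hy, fun m C₁ x h E hC hD => ?_⟩
    exact datV_fin v hC (add_le_add (plc_fin v a) (plc_fin v b)) hD
  · refine ⟨v.1, fun _ => rfl, fun y hy => low_inf v hy, fun m C₁ x h E hC hD => ?_⟩
    exact datV_inf v hC (add_le_add (plc_inf v a) (plc_inf v b)) hD

/-! ### partial sums -/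

/-- weighted length of the first `N` coefficients -/
noncomputable def PS (v : AbsoluteValue K ℝ) (ρ : ℝ) (N : ℕ) (f : PowerSeries K) : ℝ :=
  ∑ n ∈ range N, v (PowerSeries.coeff n f) * ρ ^ n

variable {v : AbsoluteValue K ℝ} {ρ : ℝ}

lemma PS_nonneg (hρ : 0 ≤ ρ) (N : ℕ) (f : PowerSeries K) : 0 ≤ PS v ρ N f :=
  sum_nonneg fun n _ => mul_nonneg (apply_nonneg v _) (by positivity)

lemma PS_mono (hρ : 0 ≤ ρ) {N N' : ℕ} (h : N ≤ N') (f : PowerSeries K) : PS v ρ N f ≤ PS v ρ N' f :=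
  sum_le_sum_of_subset_of_nonneg (range_mono h) fun n _ _ => mul_nonneg (apply_nonneg v _) (by positivity)

lemma PS_add (hρ : 0 ≤ ρ) (N : ℕ) (f g : PowerSeries K) : PS v ρ N (f + g) ≤ PS v ρ N f + PS v ρ N g := by
  unfold PS
  rw [← sum_add_distrib]
  refine sum_le_sum fun n _ => ?_
  rw [map_add, ← add_mul]
  exact mul_le_mul_of_nonneg_right (v.add_le _ _) (by positivity)

lemma PS_C (N : ℕ) (f : PowerSeries K) (c : K) : PS v ρ N (f * PowerSeries.C c) = v c * PS v ρ N f := by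
  unfold PS
  rw [mul_sum]
  refine sum_congr rfl fun n _ => ?_
  rw [PowerSeries.coeff_mul_C, map_mul]
  ring

lemma PS_conv (hρ : 0 ≤ ρ) (N : ℕ) (f g : PowerSeries K) : PS v ρ N (f * g) ≤
    ∑ k ∈ range N, (v (PowerSeries.coeff k f) * ρ ^ k) * PS v ρ (N - k) g := by
  calc ∑ n ∈ range N, v (PowerSeries.coeff n (f * g)) * ρ ^ n ≤
      ∑ n ∈ range N, ∑ k ∈ range (n + 1), (v (PowerSeries.coeff k f) * ρ ^ k) *
        (v (PowerSeries.coeff (n - k) g) * ρ ^ (n - k)) := by
        refine sum_le_sum fun n _ => ?_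
        rw [PowerSeries.coeff_mul, Finset.Nat.sum_antidiagonal_eq_sum_range_succ
          (fun i j => PowerSeries.coeff i f * PowerSeries.coeff j g) n]
        refine (mul_le_mul_of_nonneg_right (v_sum _ _) (by positivity)).trans (le_of_eq ?_)
        rw [sum_mul]
        refine sum_congr rfl fun k hk => ?_
        rw [mem_range] at hk
        have e : ρ ^ n = ρ ^ k * ρ ^ (n - k) := by
          rw [← pow_add]
          congr 1
          omega
        rw [map_mul, e]
        ring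
    _ = ∑ k ∈ range N, ∑ l ∈ range (N - k), (v (PowerSeries.coeff k f) * ρ ^ k) *
        (v (PowerSeries.coeff l g) * ρ ^ l) :=
        Finset.sum_range_diag_flip N (fun k l => (v (PowerSeries.coeff k f) * ρ ^ k) *
          (v (PowerSeries.coeff l g) * ρ ^ l))
    _ = _ := by
        refine sum_congr rfl fun k _ => ?_
        rw [← mul_sum]
        rfl

lemma PS_mul (hρ : 0 ≤ ρ) (N : ℕ) (f g : PowerSeries K) : PS v ρ N (f * g) ≤ PS v ρ N f * PS v ρ N g := by
  refine (PS_conv hρ N f g).trans ?_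
  unfold PS
  rw [sum_mul]
  refine sum_le_sum fun k _ => ?_
  refine mul_le_mul_of_nonneg_left ?_ (mul_nonneg (apply_nonneg v _) (by positivity))
  exact PS_mono hρ (Nat.sub_le _ _) g

lemma PS_mul0 (hρ : 0 ≤ ρ) (s : ℕ) (f : PowerSeries K) {g : PowerSeries K} (hg : PowerSeries.coeff 0 g = 0) {B : ℝ}
    (hB : WB v ρ B g) : PS v ρ (s + 1) (f * g) ≤ PS v ρ s f * B := by
  refine (PS_conv hρ _ f g).trans ?_
  rw [sum_range_succ]
  have h1 : PS v ρ (s + 1 - s) g = 0 := by
    rw [Nat.add_sub_cancel_left]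
    unfold PS
    simp [hg]
  rw [h1, mul_zero, add_zero]
  unfold PS
  rw [sum_mul]
  refine sum_le_sum fun k _ => ?_
  exact mul_le_mul_of_nonneg_left (hB _) (mul_nonneg (apply_nonneg v _) (by positivity))

/-- powers of a series with a small constant term -/
lemma PS_pow (hρ : 0 ≤ ρ) {q₀ : K} {g : PowerSeries K} (hg : PowerSeries.coeff 0 g = 0) {B δ : ℝ}
    (hB : WB v ρ B g) (hB1 : 1 ≤ B) (hδ0 : 0 < δ) (hδ1 : δ ≤ 1) (hq : v q₀ ≤ δ) (l : ℕ) : ∀ s : ℕ,
    PS v ρ (s + 1) ((PowerSeries.C q₀ + g) ^ l) ≤ 2 ^ l * δ ^ (l - s) * B ^ min s l := by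
  induction l with
  | zero =>
    intro s
    rw [pow_zero]
    have h := WB.one (v := v) (ρ := ρ) (s + 1)
    simp only [pow_zero, Nat.zero_sub, mul_one, Nat.min_zero]
    exact h
  | succ l ih =>
    intro s
    rw [pow_succ, mul_add]
    refine (PS_add hρ _ _ _).trans ?_
    rw [PS_C]
    have h1 : v q₀ * PS v ρ (s + 1) ((PowerSeries.C q₀ + g) ^ l) ≤ 2 ^ l * δ ^ (l + 1 - s) * B ^ min s (l + 1) := by
      calc v q₀ * PS v ρ (s + 1) ((PowerSeries.C q₀ + g) ^ l) ≤ δ * (2 ^ l * δ ^ (l - s) * B ^ min s l) :=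
            mul_le_mul hq (ih s) (PS_nonneg hρ _ _) hδ0.le
        _ = 2 ^ l * δ ^ (l - s + 1) * B ^ min s l := by rw [pow_succ δ]; ring
        _ ≤ 2 ^ l * δ ^ (l + 1 - s) * B ^ min s (l + 1) := by
            have e1 : δ ^ (l - s + 1) ≤ δ ^ (l + 1 - s) := pow_le_pow_of_le_one hδ0.le hδ1 (by omega)
            have e2 : B ^ min s l ≤ B ^ min s (l + 1) := pow_le_pow_right₀ hB1 (by omega)
            gcongr
    have h2 : PS v ρ (s + 1) ((PowerSeries.C q₀ + g) ^ l * g) ≤ 2 ^ l * δ ^ (l + 1 - s) * B ^ min s (l + 1) := by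
      refine (PS_mul0 hρ s _ hg hB).trans ?_
      rcases s with _ | s
      · have : PS v ρ 0 ((PowerSeries.C q₀ + g) ^ l) = 0 := by unfold PS; simp
        rw [this, zero_mul]
        positivity
      · calc PS v ρ (s + 1) ((PowerSeries.C q₀ + g) ^ l) * B ≤ (2 ^ l * δ ^ (l - s) * B ^ min s l) * B :=
              mul_le_mul_of_nonneg_right (ih s) (by linarith)
          _ = 2 ^ l * δ ^ (l + 1 - (s + 1)) * B ^ min (s + 1) (l + 1) := by
              rw [Nat.add_sub_add_right, Nat.add_min_add_right, pow_succ]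
              ring
    calc _ ≤ 2 ^ l * δ ^ (l + 1 - s) * B ^ min s (l + 1) + 2 ^ l * δ ^ (l + 1 - s) * B ^ min s (l + 1) := add_le_add h1 h2
      _ = _ := by rw [pow_succ]; ring

lemma coeff_le_PS (hρ : 0 < ρ) (s : ℕ) (f : PowerSeries K) : v (PowerSeries.coeff s f) ≤ PS v ρ (s + 1) f * (ρ⁻¹) ^ s := by
  have h2 : v (PowerSeries.coeff s f) * ρ ^ s ≤ PS v ρ (s + 1) f :=
    single_le_sum (f := fun n => v (PowerSeries.coeff n f) * ρ ^ n)
      (fun i _ => mul_nonneg (apply_nonneg v _) (by positivity)) (self_mem_range_succ s)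
  rw [inv_pow, ← div_eq_mul_inv, le_div_iff₀ (by positivity)]
  exact h2

end Pool.Agent.J4H49.GE
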