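import Pool.Agent.J4H49.GE.Lcb1

/-!
# Project GE (helper27): job (LCB), second part: the expansions in powers of `Q`
-/

set_option autoImplicit false
set_option linter.unusedSectionVars false

open Finset NumberField

namespace Pool.Agent.J4H49.GE

open Pool.Agent.J4H27.GC Pool.Agent.J4H27.GE
open Pool.Agent.J4H71.GC (Ht hR_eq)

variable {K : Type} [Field K] [NumberField K] {m : ℕ}

/-- the value of `Q` at a series -/
noncomputable def QS (Q : Polynomial (𝓞 K)) (f : PowerSeries K) : PowerSeries K :=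
  Q.eval₂ ((PowerSeries.C).comp (algebraMap (𝓞 K) K)) f

lemma QS_mv (Q : Polynomial (𝓞 K)) (f : PowerSeries K) (t : Ix m) :
    (QS Q f).toMvPowerSeries t = Q.eval₂ (gR K m) (f.toMvPowerSeries t) := by
  unfold QS
  have h := Polynomial.hom_eval₂ Q ((PowerSeries.C).comp (algebraMap (𝓞 K) K))
    ((PowerSeries.toMvPowerSeries (R := K) t : PowerSeries K →ₐ[K] MvPowerSeries (Ix m) K) : PowerSeries K →+* MvPowerSeries (Ix m) K) f
  have e : ((PowerSeries.toMvPowerSeries (R := K) t : PowerSeries K →ₐ[K] MvPowerSeries (Ix m) K) :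
      PowerSeries K →+* MvPowerSeries (Ix m) K).comp ((PowerSeries.C).comp (algebraMap (𝓞 K) K)) = gR K m := by
    refine RingHom.ext fun c => ?_
    exact (gR_eq c t).symm
  rw [e] at h
  exact h

lemma QS_const (Q : Polynomial (𝓞 K)) (x h : Ix m → K) (t : Ix m) :
    PowerSeries.coeff 0 (QS Q (Xt x h t)) = Q.eval₂ (algebraMap (𝓞 K) K) (x t) := by
  unfold QS
  rw [PowerSeries.coeff_zero_eq_constantCoeff]
  have h1 := Polynomial.hom_eval₂ Q ((PowerSeries.C).comp (algebraMap (𝓞 K) K)) (PowerSeries.constantCoeff (R := K))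
    (Xt x h t)
  have e : (PowerSeries.constantCoeff (R := K)).comp ((PowerSeries.C).comp (algebraMap (𝓞 K) K)) =
      algebraMap (𝓞 K) K := by
    refine RingHom.ext fun c => ?_
    simp
  have e2 : PowerSeries.constantCoeff (Xt x h t) = x t := by
    unfold Xt
    simp
  rw [e, e2] at h1
  exact h1

variable {v : AbsoluteValue K ℝ} {ρ : ℝ}

lemma WB.zero : WB v ρ 0 (0 : PowerSeries K) := by
  intro N
  simp

lemma WB.add {A A' : ℝ} {f g : PowerSeries K} (hρ : 0 ≤ ρ) (hf : WB v ρ A f) (hg : WB v ρ A' g) :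
    WB v ρ (A + A') (f + g) := fun N => (PS_add hρ N f g).trans (add_le_add (hf N) (hg N))

lemma WB.sum {ι : Type*} (hρ : 0 ≤ ρ) (s : Finset ι) (A : ι → ℝ) (f : ι → PowerSeries K)
    (hf : ∀ i ∈ s, WB v ρ (A i) (f i)) : WB v ρ (∑ i ∈ s, A i) (∑ i ∈ s, f i) := by
  classical
  induction s using Finset.induction_on with
  | empty => rw [sum_empty, sum_empty]; exact WB.zero
  | insert a s ha ih =>
    rw [sum_insert ha, sum_insert ha]
    exact WB.add hρ (hf a (mem_insert_self _ _)) (ih fun i hi => hf i (mem_insert_of_mem hi))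

lemma WB.Cmul {A : ℝ} {f : PowerSeries K} (c : K) (hf : WB v ρ A f) : WB v ρ (v c * A) (PowerSeries.C c * f) := by
  intro N
  have h1 : ∑ n ∈ range N, v (PowerSeries.coeff n (PowerSeries.C c * f)) * ρ ^ n =
      v c * ∑ n ∈ range N, v (PowerSeries.coeff n f) * ρ ^ n := by
    rw [mul_sum]
    refine sum_congr rfl fun n _ => ?_
    rw [PowerSeries.coeff_C_mul, map_mul]
    ring
  rw [h1]
  exact mul_le_mul_of_nonneg_left (hf N) (apply_nonneg v _)

/-- weighted length of the value of `Q` -/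
lemma QS_WB (hρ : 0 ≤ ρ) (hv : Plc v) {Q : Polynomial (𝓞 K)} {N : ℕ} (hN : Q.natDegree ≤ N) {L : ℝ} (hL : 1 ≤ L)
    (hQ : ∀ i, house (Q.coeff i : K) ≤ L) {A : ℝ} (hA : 1 ≤ A) {f : PowerSeries K} (hf : WB v ρ A f) :
    WB v ρ ((N + 1) * L * A ^ N) (QS Q f) := by
  unfold QS
  rw [Polynomial.eval₂_eq_sum_range]
  refine (WB.sum hρ _ (fun j => v (Q.coeff j : K) * A ^ j) _ fun j _ => WB.Cmul _ (WB.pow hρ hf j)).mono ?_
  calc ∑ j ∈ range (Q.natDegree + 1), v (Q.coeff j : K) * A ^ j ≤ ∑ _j ∈ range (Q.natDegree + 1), L * A ^ N := by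
        refine sum_le_sum fun j hj => ?_
        rw [mem_range] at hj
        exact mul_le_mul ((hv _).trans (hQ j)) (pow_le_pow_right₀ hA (by omega)) (by positivity) (by linarith)
    _ = (Q.natDegree + 1) * (L * A ^ N) := by simp
    _ ≤ (N + 1) * (L * A ^ N) := by
        refine mul_le_mul_of_nonneg_right ?_ (by positivity)
        have : (Q.natDegree : ℝ) ≤ N := by exact_mod_cast hN
        linarith
    _ = _ := by ring

lemma WB.cut {A : ℝ} {f : PowerSeries K} (hρ : 0 ≤ ρ) (hf : WB v ρ A f) :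
    WB v ρ A (f - PowerSeries.C (PowerSeries.coeff 0 f)) := by
  intro N
  refine le_trans (sum_le_sum fun n _ => ?_) (hf N)
  refine mul_le_mul_of_nonneg_right ?_ (by positivity)
  rw [map_sub, PowerSeries.coeff_C]
  split_ifs with h
  · subst h
    rw [sub_self, map_zero]
    exact apply_nonneg v _
  · rw [sub_zero]

/-- bound of a coefficient at an index of the second kind -/
lemma fs_bound {a b : 𝓞 K} {A₀ C₂ : ℝ} {x h : Ix m → K} {E : Ix m → PowerSeries K} (hD : DatV v a b A₀ C₂ x h E)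
    (u : Option (Fin m)) {Q : Polynomial (𝓞 K)} {N : ℕ} (hN : Q.natDegree ≤ N) {L : ℝ} (hL : 1 ≤ L)
    (hQ : ∀ i, house (Q.coeff i : K) ≤ L) {δ : ℝ} (hδ0 : 0 < δ) (hδ1 : δ ≤ 1)
    (hq : v (Q.eval₂ (algebraMap (𝓞 K) K) (x (u, 1))) ≤ δ) {Y : ℝ} (hY1 : 5 * (1 + A₀) ≤ Y) (hY2 : C₂ ≤ Y) (hY3 : 2 ≤ Y)
    (hY4 : (N : ℝ) + 1 ≤ Y) (c e l s : ℕ) :
    v (PowerSeries.coeff s (Xt x h (u, 1) ^ c * Ht h E (u, 1) ^ e * QS Q (Xt x h (u, 1)) ^ l)) ≤
      (Y ^ (c + e + l + (N + 2) * s) * δ ^ (l - s) * L ^ l) * max 1 (v (x (u, 1))) ^ (c + 2 * e + (N + 2) * s) := by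
  have hρ := hD.rho u
  have hA00 := A0_nonneg hD
  have hM : 1 ≤ max 1 (v (x (u, 1))) := le_max_left _ _
  have hP := hD.P u
  have hH := hD.H u
  have hC₂ := hD.1
  set M := max 1 (v (x (u, 1))) with hMdef
  set ρ₀ := (C₂ * M ^ 2)⁻¹ with hρ₀
  have hPM : 1 ≤ 5 * (1 + A₀) * M := by nlinarith
  have hQW := QS_WB hρ.le hD.2.2.1 hN hL hQ hPM hP
  have hcut := hQW.cut hρ.le
  have hB1 : 1 ≤ ((N : ℝ) + 1) * L * (5 * (1 + A₀) * M) ^ N := by
    have e1 : (1 : ℝ) ≤ (N : ℝ) + 1 := by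
      have : (0 : ℝ) ≤ N := Nat.cast_nonneg N
      linarith
    have e2 : 1 ≤ (5 * (1 + A₀) * M) ^ N := one_le_pow₀ hPM
    calc (1 : ℝ) = 1 * 1 * 1 := by ring
      _ ≤ _ := by gcongr
  have hz : PowerSeries.coeff 0 (QS Q (Xt x h (u, 1)) - PowerSeries.C (PowerSeries.coeff 0 (QS Q (Xt x h (u, 1))))) = 0 := by
    rw [map_sub, PowerSeries.coeff_C, if_pos rfl, sub_self]
  have h1 := PS_pow hρ.le hz hcut hB1 hδ0 hδ1 (q₀ := PowerSeries.coeff 0 (QS Q (Xt x h (u, 1)))) (by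
    rw [QS_const]; exact hq) l s
  rw [add_sub_cancel] at h1
  have h2 : PS v ρ₀ (s + 1) (Xt x h (u, 1) ^ c * Ht h E (u, 1) ^ e) ≤ (5 * (1 + A₀) * M) ^ c * (5 * (1 + A₀) * M ^ 2) ^ e :=
    (WB.mul hρ.le (WB.pow hρ.le hP c) (WB.pow hρ.le hH e)) (s + 1)
  have h3 := coeff_le_PS (v := v) hρ s (Xt x h (u, 1) ^ c * Ht h E (u, 1) ^ e * QS Q (Xt x h (u, 1)) ^ l)
  have h4 := PS_mul (v := v) hρ.le (s + 1) (Xt x h (u, 1) ^ c * Ht h E (u, 1) ^ e) (QS Q (Xt x h (u, 1)) ^ l)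
  have hM0 : 0 < M := lt_of_lt_of_le one_pos hM
  have hY0 : 0 < Y := by linarith
  have hY1' : 1 ≤ Y := by linarith
  have hC30 : 0 ≤ 5 * (1 + A₀) := by linarith
  have g1 : (5 * (1 + A₀) * M) ^ c * (5 * (1 + A₀) * M ^ 2) ^ e ≤ Y ^ (c + e) * M ^ (c + 2 * e) := by
    rw [mul_pow (5 * (1 + A₀)) M, mul_pow (5 * (1 + A₀)) (M ^ 2), ← pow_mul, pow_add Y, pow_add M]
    calc (5 * (1 + A₀)) ^ c * M ^ c * ((5 * (1 + A₀)) ^ e * M ^ (2 * e)) =
        (5 * (1 + A₀)) ^ c * (5 * (1 + A₀)) ^ e * (M ^ c * M ^ (2 * e)) := by ring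
      _ ≤ Y ^ c * Y ^ e * (M ^ c * M ^ (2 * e)) := by gcongr
  have g2 : 2 ^ l * δ ^ (l - s) * (((N : ℝ) + 1) * L * (5 * (1 + A₀) * M) ^ N) ^ min s l ≤
      Y ^ l * δ ^ (l - s) * (L ^ l * (Y ^ ((N + 1) * s) * M ^ (N * s))) := by
    have e1 : (((N : ℝ) + 1) * L * (5 * (1 + A₀) * M) ^ N) ^ min s l ≤ L ^ l * (Y ^ ((N + 1) * s) * M ^ (N * s)) := by
      have e2 : ((N : ℝ) + 1) * L * (5 * (1 + A₀) * M) ^ N = L * (((N : ℝ) + 1) * (5 * (1 + A₀) * M) ^ N) := by ring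
      have e3 : (1 : ℝ) ≤ ((N : ℝ) + 1) * (5 * (1 + A₀) * M) ^ N := by
        have a1 : (1 : ℝ) ≤ (N : ℝ) + 1 := by
          have : (0 : ℝ) ≤ N := Nat.cast_nonneg N
          linarith
        calc (1 : ℝ) = 1 * 1 := by ring
          _ ≤ _ := by
            have := one_le_pow₀ hPM (n := N)
            gcongr
      rw [e2, mul_pow]
      refine mul_le_mul (pow_le_pow_right₀ hL (min_le_right _ _)) ?_ (by positivity) (by positivity)
      calc (((N : ℝ) + 1) * (5 * (1 + A₀) * M) ^ N) ^ min s l ≤ (((N : ℝ) + 1) * (5 * (1 + A₀) * M) ^ N) ^ s :=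
            pow_le_pow_right₀ e3 (min_le_left _ _)
        _ ≤ (Y * (Y * M) ^ N) ^ s := by gcongr
        _ = _ := by
            rw [mul_pow Y M N, ← mul_assoc, ← pow_succ', mul_pow, ← pow_mul, ← pow_mul]
    gcongr
  have g3 : (ρ₀⁻¹) ^ s ≤ Y ^ s * M ^ (2 * s) := by
    rw [hρ₀, inv_inv, mul_pow, ← pow_mul]
    gcongr
  have hW0 : 0 ≤ (5 * (1 + A₀) * M) ^ c * (5 * (1 + A₀) * M ^ 2) ^ e := by positivity
  calc v (PowerSeries.coeff s (Xt x h (u, 1) ^ c * Ht h E (u, 1) ^ e * QS Q (Xt x h (u, 1)) ^ l)) ≤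
      PS v ρ₀ (s + 1) (Xt x h (u, 1) ^ c * Ht h E (u, 1) ^ e * QS Q (Xt x h (u, 1)) ^ l) * (ρ₀⁻¹) ^ s := h3
    _ ≤ ((Y ^ (c + e) * M ^ (c + 2 * e)) * (Y ^ l * δ ^ (l - s) * (L ^ l * (Y ^ ((N + 1) * s) * M ^ (N * s))))) *
        (Y ^ s * M ^ (2 * s)) := by
        refine mul_le_mul (h4.trans (mul_le_mul (h2.trans g1) (h1.trans g2) (PS_nonneg hρ.le _ _) (by positivity))) g3
          (by positivity) (by positivity)
    _ = (Y ^ (c + e) * Y ^ l * Y ^ ((N + 1) * s) * Y ^ s) * δ ^ (l - s) * L ^ l *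
        (M ^ (c + 2 * e) * M ^ (N * s) * M ^ (2 * s)) := by ring
    _ = _ := by
        rw [← pow_add, ← pow_add, ← pow_add, ← pow_add, ← pow_add]
        congr 2
        · congr 2
          ring_nf
        · ring_nf

/-! ### the identity -/

/-- the exponents of the coordinates -/
def CC (D : Fin m → ℕ) : Finset (Fin m → ℕ) := Fintype.piFinset fun i => Finset.range (2 * D i + 1)

/-- the indices of the expansions -/
def ZZ (D : Fin m → ℕ) (N : ℕ) : Finset (Fin m → ℕ × ℕ) :=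
  Fintype.piFinset fun i => Finset.range (2 * D i + 1) ×ˢ Finset.range N

lemma sum_KB {S : Type} [AddCommMonoid S] (D : Fin m → ℕ) (f : (Fin m → ℕ × Bool) → S) :
    ∑ κ ∈ KB D, f κ = ∑ e : Fin m → Bool, ∑ c ∈ CC D, f (fun i => (c i, e i)) := by
  classical
  rw [← sum_product']
  refine sum_nbij' (fun κ => (fun i => (κ i).2, fun i => (κ i).1)) (fun p => fun i => (p.2 i, p.1 i)) ?_ ?_ ?_ ?_ ?_
  · intro κ hκ
    unfold KB at hκ
    rw [Fintype.mem_piFinset] at hκ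
    simp only [mem_product, mem_univ, true_and, CC, Fintype.mem_piFinset]
    intro i
    exact (mem_product.1 (hκ i)).1
  · intro p hp
    simp only [mem_product, mem_univ, true_and, CC, Fintype.mem_piFinset] at hp
    unfold KB
    rw [Fintype.mem_piFinset]
    intro i
    exact mem_product.2 ⟨hp i, mem_univ _⟩
  · intro κ _
    rfl
  · intro p _
    rfl
  · intro κ _
    rfl

lemma Q_id {S : Type} [CommRing S] (g : 𝓞 K →+* S) (y : S) {N : ℕ} {CQ L : ℝ} {Q : Polynomial (𝓞 K)} {cm : ℕ}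
    {R : ℕ → ℕ → ℕ → 𝓞 K} (hQ : Qad N CQ Q L cm R) {c : ℕ} (hc : c ≤ cm) :
    g (Q.leadingCoeff ^ cm) * y ^ c = ∑ z ∈ Finset.range (cm + 1) ×ˢ Finset.range N,
      g (R c z.1 z.2) * (y ^ z.2 * (Q.eval₂ g y) ^ z.1) := by
  have h1 := congrArg (Polynomial.eval₂ g y) (hQ.2.2.2.2.1 c hc)
  rw [Polynomial.eval₂_mul, Polynomial.eval₂_C, Polynomial.eval₂_pow, Polynomial.eval₂_X] at h1
  rw [h1, sum_product, Polynomial.eval₂_finsetSum]
  refine sum_congr rfl fun l _ => ?_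
  rw [Polynomial.eval₂_finsetSum]
  refine sum_congr rfl fun b _ => ?_
  rw [Polynomial.eval₂_mul, Polynomial.eval₂_mul, Polynomial.eval₂_C, Polynomial.eval₂_pow, Polynomial.eval₂_pow,
    Polynomial.eval₂_X]
  ring

/-- the polynomial of the conditions -/
noncomputable def GZ (D : Fin m → ℕ) (R : Fin m → ℕ → ℕ → ℕ → 𝓞 K)
    (GBf : (Fin m → ℕ × Bool) → MvPolynomial (Fin 2) (𝓞 K)) (e : Fin m → Bool) (z : Fin m → ℕ × ℕ) :
    MvPolynomial (Fin 2) (𝓞 K) :=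
  ∑ c ∈ CC D, MvPolynomial.C (∏ i, R i (c i) (z i).1 (z i).2) * GBf (fun i => (c i, e i))

lemma key_id {S : Type} [CommRing S] (g : 𝓞 K →+* S) (x0 : Fin 2 → S) (y h : Fin m → S) (h0 : S)
    (GBf : (Fin m → ℕ × Bool) → MvPolynomial (Fin 2) (𝓞 K)) (D : Fin m → ℕ) {N : ℕ} {CQ : ℝ}
    {Q : Fin m → Polynomial (𝓞 K)} {L : Fin m → ℝ} {R : Fin m → ℕ → ℕ → ℕ → 𝓞 K}
    (hQ : ∀ i, Qad N CQ (Q i) (L i) (2 * D i) (R i)) :
    g (∏ i, (Q i).leadingCoeff ^ (2 * D i)) * ∑ κ ∈ KB D, (GBf κ).eval₂ g x0 *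
      ∏ i, (y i ^ (κ i).1 * if (κ i).2 then h i * h0 else 1) =
    ∑ e : Fin m → Bool, ∑ z ∈ ZZ D N, (GZ D R GBf e z).eval₂ g x0 *
      ∏ i, ((y i ^ (z i).2 * ((Q i).eval₂ g (y i)) ^ (z i).1) ^ 1 * if e i then h i * h0 else 1) := by
  classical
  rw [sum_KB, mul_sum]
  refine sum_congr rfl fun e _ => ?_
  rw [mul_sum]
  have h1 : ∀ c ∈ CC D, g (∏ i, (Q i).leadingCoeff ^ (2 * D i)) * ((GBf (fun i => (c i, e i))).eval₂ g x0 *
      ∏ i, (y i ^ c i * if e i then h i * h0 else 1)) =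
      ∑ z ∈ ZZ D N, ((GBf (fun i => (c i, e i))).eval₂ g x0 * ∏ i, g (R i (c i) (z i).1 (z i).2)) *
        ∏ i, ((y i ^ (z i).2 * ((Q i).eval₂ g (y i)) ^ (z i).1) ^ 1 * if e i then h i * h0 else 1) := by
    intro c hc
    unfold CC at hc
    rw [Fintype.mem_piFinset] at hc
    have h2 : g (∏ i, (Q i).leadingCoeff ^ (2 * D i)) * ∏ i, y i ^ c i =
        ∑ z ∈ ZZ D N, ∏ i, (g (R i (c i) (z i).1 (z i).2) * (y i ^ (z i).2 * ((Q i).eval₂ g (y i)) ^ (z i).1)) := by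
      unfold ZZ
      rw [map_prod, ← prod_mul_distrib]
      refine Eq.trans ?_ (Finset.prod_univ_sum (fun i => range (2 * D i + 1) ×ˢ range N)
        (fun i z => g (R i (c i) z.1 z.2) * (y i ^ z.2 * ((Q i).eval₂ g (y i)) ^ z.1)))
      refine prod_congr rfl fun i _ => ?_
      have := hc i
      rw [mem_range] at this
      exact Q_id g (y i) (hQ i) (by omega)
    have h3 : g (∏ i, (Q i).leadingCoeff ^ (2 * D i)) * ((GBf (fun i => (c i, e i))).eval₂ g x0 *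
        ∏ i, (y i ^ c i * if e i then h i * h0 else 1)) =
        (GBf (fun i => (c i, e i))).eval₂ g x0 * (∏ i, if e i then h i * h0 else 1) *
          (g (∏ i, (Q i).leadingCoeff ^ (2 * D i)) * ∏ i, y i ^ c i) := by
      have e1 : ∏ i, (y i ^ c i * if e i then h i * h0 else 1) = (∏ i, y i ^ c i) * ∏ i, (if e i then h i * h0 else 1) :=
        prod_mul_distrib
      rw [e1]
      ring
    rw [h3, h2, mul_sum]
    refine sum_congr rfl fun z _ => ?_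
    have e1 : ∏ i, (g (R i (c i) (z i).1 (z i).2) * (y i ^ (z i).2 * ((Q i).eval₂ g (y i)) ^ (z i).1)) =
        (∏ i, g (R i (c i) (z i).1 (z i).2)) * ∏ i, (y i ^ (z i).2 * ((Q i).eval₂ g (y i)) ^ (z i).1) := prod_mul_distrib
    have e2 : ∏ i, ((y i ^ (z i).2 * ((Q i).eval₂ g (y i)) ^ (z i).1) ^ 1 * if e i then h i * h0 else 1) =
        (∏ i, (y i ^ (z i).2 * ((Q i).eval₂ g (y i)) ^ (z i).1)) * ∏ i, (if e i then h i * h0 else 1) := by
      rw [← prod_mul_distrib]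
      exact prod_congr rfl fun i _ => by rw [pow_one]
    rw [e1, e2]
    ring
  rw [sum_congr rfl h1, sum_comm]
  refine sum_congr rfl fun z _ => ?_
  rw [← sum_mul]
  congr 1
  unfold GZ
  rw [MvPolynomial.eval₂_sum]
  refine sum_congr rfl fun c _ => ?_
  rw [MvPolynomial.eval₂_mul, MvPolynomial.eval₂_C, map_prod, mul_comm]

end Pool.Agent.J4H49.GE
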